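import Pool.Agent.H17EF.Bridge

/-!
# EF Closed: unions of closed subsets of a projective variety
-/

set_option autoImplicit false

open Topology Filter MvPolynomial

noncomputable section

namespace Pool.Agent.H17EF

open Pool.Agent.H17 (PN VanishesAt HolomorphicInto ZariskiClosedIn)
open Pool.Agent.H62.FC (Homog)

variable {N : ℕ} {P : Ideal (MvPolynomial (Fin (N + 1)) ℂ)}

/-- A form which is not in the homogeneous prime ideal `P` does not vanish at some point of the variety of `P`. -/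
theorem exists_point [hPp : P.IsPrime] (hP : Homog P) (hX : ∃ i, (X i : MvPolynomial (Fin (N + 1)) ℂ) ∉ P)
    {Q : MvPolynomial (Fin (N + 1)) ℂ} (hQP : Q ∉ P) {n : ℕ} (hQ : Q.IsHomogeneous n) : ∃ x ∈ projVar P, ¬ VanishesAt Q x := by
  obtain ⟨i, hi⟩ := hX
  have h1 : Q * X i ∉ P := fun h => (hPp.mem_or_mem h).elim hQP hi
  obtain ⟨x, hx, hx'⟩ : ∃ x : Fin (N + 1) → ℂ, (∀ R ∈ P, eval x R = 0) ∧ eval x (Q * X i) ≠ 0 := by
    by_contra hcon
    push Not at hcon
    apply h1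
    rw [← hPp.radical, ← MvPolynomial.vanishingIdeal_zeroLocus_eq_radical (K := ℂ) P, MvPolynomial.mem_vanishingIdeal_iff]
    intro x hx
    rw [MvPolynomial.mem_zeroLocus_iff] at hx
    rw [MvPolynomial.aeval_eq_eval]
    exact hcon x fun R hR => by
      have := hx R hR
      rwa [MvPolynomial.aeval_eq_eval] at this
  rw [map_mul, eval_X] at hx'
  have hx0 : x ≠ 0 := by
    rintro rfl
    simp at hx'
  refine ⟨Projectivization.mk ℂ x hx0, (mk_mem_projVar hP hx0).2 ⟨hx0, hx⟩, ?_⟩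
  unfold VanishesAt
  obtain ⟨a, ha, hrep⟩ := Pool.Agent.H36.BP.rep_mk hx0
  rw [hrep, mk_mem_projVar.eval_smul_form' hQ]
  exact mul_ne_zero (pow_ne_zero n ha) (left_ne_zero_of_mul hx')

/-- if the variety of `P` is not empty, some coordinate is not in `P` -/
theorem exists_coord {x : PN N} (hx : x ∈ projVar P) : ∃ i, (X i : MvPolynomial (Fin (N + 1)) ℂ) ∉ P := by
  by_contra hcon
  push Not at hcon
  apply x.rep_nonzero
  funext i
  have := hx _ (hcon i) 1 (isHomogeneous_X ℂ i)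
  unfold VanishesAt at this
  simpa using this

/-- A proper closed subset lies in a hypersurface which does not contain the variety. -/
theorem exists_form_of_ne {Ξ : Set (PN N)} (hΞ : ZariskiClosedIn (projVar P) Ξ) (hne : Ξ ≠ projVar P) :
    ∃ (R : MvPolynomial (Fin (N + 1)) ℂ) (n : ℕ), R.IsHomogeneous n ∧ R ∉ P ∧ ∀ x ∈ Ξ, VanishesAt R x := by
  obtain ⟨S, hS, rfl⟩ := hΞ
  obtain ⟨x, hx, R, hR, hRx⟩ : ∃ x ∈ projVar P, ∃ R ∈ S, ¬ VanishesAt R x := by
    by_contra hcon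
    push Not at hcon
    exact hne (Set.Subset.antisymm (fun x hx => hx.1) fun x hx => ⟨hx, hcon x hx⟩)
  obtain ⟨n, hn⟩ := hS R hR
  exact ⟨R, n, hn, fun h => hRx (hx R h n hn), fun y hy => hy.2 R hR⟩

theorem closed_union {X A B : Set (PN N)} (hA : ZariskiClosedIn X A) (hB : ZariskiClosedIn X B) : ZariskiClosedIn X (A ∪ B) := by
  obtain ⟨S, hS, rfl⟩ := hA
  obtain ⟨T, hT, rfl⟩ := hB
  refine ⟨{R | ∃ Q ∈ S, ∃ Q' ∈ T, R = Q * Q'}, ?_, ?_⟩
  · rintro _ ⟨Q, hQ, Q', hQ', rfl⟩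
    obtain ⟨n, hn⟩ := hS Q hQ
    obtain ⟨m, hm⟩ := hT Q' hQ'
    exact ⟨n + m, hn.mul hm⟩
  · ext x
    constructor
    · rintro (⟨hx, h⟩ | ⟨hx, h⟩)
      · refine ⟨hx, ?_⟩
        rintro _ ⟨Q, hQ, Q', hQ', rfl⟩
        unfold VanishesAt
        have := h Q hQ
        unfold VanishesAt at this
        rw [map_mul, this, zero_mul]
      · refine ⟨hx, ?_⟩
        rintro _ ⟨Q, hQ, Q', hQ', rfl⟩
        unfold VanishesAt
        have := h Q' hQ'
        unfold VanishesAt at this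
        rw [map_mul, this, mul_zero]
    · rintro ⟨hx, h⟩
      by_cases hA : ∀ Q ∈ S, VanishesAt Q x
      · exact Or.inl ⟨hx, hA⟩
      · right
        refine ⟨hx, fun Q' hQ' => ?_⟩
        push Not at hA
        obtain ⟨Q, hQ, hQx⟩ := hA
        have := h (Q * Q') ⟨Q, hQ, Q', hQ', rfl⟩
        unfold VanishesAt at this hQx ⊢
        rw [map_mul] at this
        exact (mul_eq_zero.1 this).resolve_left hQx

theorem closed_biUnion {X : Set (PN N)} {ι : Type*} {I : Set ι} (hI : I.Finite) {A : ι → Set (PN N)}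
    (hA : ∀ i ∈ I, ZariskiClosedIn X (A i)) : ZariskiClosedIn X (⋃ i ∈ I, A i) := by
  induction I, hI using Set.Finite.induction_on with
  | empty =>
    refine ⟨{1}, ?_, ?_⟩
    · intro R hR
      rw [Set.mem_singleton_iff.1 hR]
      exact ⟨0, isHomogeneous_one _ _⟩
    · ext x
      simp [VanishesAt]
  | @insert a s _ _ ih =>
    rw [Set.biUnion_insert]
    exact closed_union (hA a (Set.mem_insert _ _)) (ih fun i hi => hA i (Set.mem_insert_of_mem _ hi))

/-- a product of forms -/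
theorem exists_prod [hPp : P.IsPrime] {ι : Type*} {I : Set ι} (hI : I.Finite) {A : ι → Set (PN N)}
    (hA : ∀ i ∈ I, ∃ (R : MvPolynomial (Fin (N + 1)) ℂ) (n : ℕ), R.IsHomogeneous n ∧ R ∉ P ∧ ∀ x ∈ A i, VanishesAt R x) :
    ∃ (R : MvPolynomial (Fin (N + 1)) ℂ) (n : ℕ), R.IsHomogeneous n ∧ R ∉ P ∧ ∀ x ∈ ⋃ i ∈ I, A i, VanishesAt R x := by
  induction I, hI using Set.Finite.induction_on with
  | empty =>
    refine ⟨1, 0, isHomogeneous_one _ _, fun h => hPp.ne_top ((Ideal.eq_top_iff_one P).2 h), ?_⟩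
    intro x hx
    simp at hx
  | @insert a s _ _ ih =>
    obtain ⟨R, n, hR, hRP, h⟩ := ih fun i hi => hA i (Set.mem_insert_of_mem _ hi)
    obtain ⟨R', n', hR', hRP', h'⟩ := hA a (Set.mem_insert _ _)
    refine ⟨R' * R, n' + n, hR'.mul hR, fun hm => (hPp.mem_or_mem hm).elim hRP' hRP, ?_⟩
    rw [Set.biUnion_insert]
    rintro x (hx | hx)
    · have := h' x hx
      unfold VanishesAt at this ⊢
      rw [map_mul, this, zero_mul]
    · have := h x hx
      unfold VanishesAt at this ⊢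
      rw [map_mul, this, mul_zero]

/-- The Zariski closure of the image of a map. -/
def zariskiClosure (f : ℂ → PN N) : Set (PN N) :=
  {x | ∀ (Q : MvPolynomial (Fin (N + 1)) ℂ) (n : ℕ), Q.IsHomogeneous n → (∀ z, VanishesAt Q (f z)) → VanishesAt Q x}

theorem closed_zariskiClosure {f : ℂ → PN N} (hf : ∀ z, f z ∈ projVar P) : ZariskiClosedIn (projVar P) (zariskiClosure f) := by
  refine ⟨{Q | (∃ n, Q.IsHomogeneous n) ∧ ∀ z, VanishesAt Q (f z)}, fun Q hQ => hQ.1, ?_⟩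
  ext x
  constructor
  · intro hx
    refine ⟨fun Q hQ n hn => hx Q n hn fun z => hf z Q hQ n hn, fun Q hQ => ?_⟩
    obtain ⟨n, hn⟩ := hQ.1
    exact hx Q n hn hQ.2
  · rintro ⟨-, hx⟩ Q n hn hQ
    exact hx Q ⟨⟨n, hn⟩, hQ⟩

end Pool.Agent.H17EF
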