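import Pool.Agent.H17EF.MainE
import Pool.Agent.H17EF.Closed

/-!
# EF Four: the four properties of the Green–Griffiths–Lang conjecture
-/

set_option autoImplicit false

open MvPolynomial

noncomputable section

namespace Pool.Agent.H17EF

open Pool.Agent.H17 (PN VanishesAt ZariskiClosedIn HolomorphicInto puncturedDisc)
open Pool.Agent.H62.FC (Homog)
open Pool.Agent.H17LG.Variety (FunField IsLogGeneralType)
open Pool.Agent.H13.SM (conTan)
open Pool.Agent.H14.KB (KobayashiHyperbolicModulo)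
open Pool.Agent.H13.OT (OrderTwo)

variable {N : ℕ}

theorem locVar_one (P : Ideal (MvPolynomial (Fin (N + 1)) ℂ)) :
    Pool.Agent.H62.SA.locVar P (fun _ : Fin 1 => (1 : MvPolynomial (Fin (N + 1)) ℂ)) = projVar P := by
  ext x
  constructor
  · exact fun h => h.1
  · intro h
    refine ⟨h, 0, ?_⟩
    unfold VanishesAt
    simp

theorem onBd_one (P : Ideal (MvPolynomial (Fin (N + 1)) ℂ)) [P.IsPrime] (k : ℕ) :
    (Pool.Agent.H62.SA.OnBd P (fun _ : Fin 1 => (1 : MvPolynomial (Fin (N + 1)) ℂ)) (k := k)) = fun _ => False := by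
  funext E
  apply propext
  constructor
  · rintro ⟨j, -, -, h⟩
    have := h 0
    rw [map_one] at this
    rw [E.ord.map_one] at this
    exact absurd this (lt_irrefl _)
  · exact False.elim

/-- The exceptional set. -/
def excE (P : Ideal (MvPolynomial (Fin (N + 1)) ℂ)) (Λ : AddSubgroup ℂ) (u : PN N → ℂ ⧸ Λ) (Z : Set (PN N)) : Set (PN N) :=
  Z ∪ ⋃ f ∈ sections (projVar P) Λ u, zariskiClosure f

theorem two_of_basis {K : Type} [Field K] [Algebra ℂ K] {w : ℕ} (h : ∃ z : Fin 2 → K, IsTranscendenceBasis ℂ z)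
    (hw : ∃ z : Fin w → K, IsTranscendenceBasis ℂ z) : w = 2 := by
  obtain ⟨z, hz⟩ := h
  obtain ⟨z', hz'⟩ := hw
  have h1 := hz.lift_cardinalMk_eq_trdeg
  have h2 := hz'.lift_cardinalMk_eq_trdeg
  rw [← h1] at h2
  have h3 : ((w : ℕ) : Cardinal) = ((2 : ℕ) : Cardinal) := by simpa using h2
  exact_mod_cast h3

section

variable {P : Ideal (MvPolynomial (Fin (N + 1)) ℂ)} [P.IsPrime] {z : Fin 2 → FunField P}

theorem four (hP : Homog P) (hz : IsTranscendenceBasis ℂ z)
    (hsm : ∀ y : Fin (N + 1) → ℂ, y ≠ 0 → (∀ Q ∈ P, eval y Q = 0) → Module.finrank ℂ (conTan P y) ≤ 3) (hgt : GT P 2)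
    {w : Fin 2 → ℂ} (hw : LinearIndependent ℝ w) {u : PN N → ℂ ⧸ AddSubgroup.closure (Set.range w)}
    (hu : IsHolomorphicMap (projVar P) (AddSubgroup.closure (Set.range w)) u) {Z : Set (PN N)}
    (hZ : ZariskiClosedIn (projVar P) Z ∧ Z ≠ projVar P)
    (hfib : FibreCondition (projVar P) (AddSubgroup.closure (Set.range w)) u Z) :
    (ZariskiClosedIn (projVar P) (excE P (AddSubgroup.closure (Set.range w)) u Z) ∧
      excE P (AddSubgroup.closure (Set.range w)) u Z ≠ projVar P) ∧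
    (∀ f : ℂ → PN N, HolomorphicInto f Set.univ → (∀ z, f z ∈ projVar P) → (∃ z w, f z ≠ f w) →
      ∀ z, f z ∈ excE P (AddSubgroup.closure (Set.range w)) u Z) ∧
    (∀ f : ℂ → PN N, HolomorphicInto f puncturedDisc → (∀ z ∈ puncturedDisc, f z ∈ projVar P) →
      (∃ z ∈ puncturedDisc, f z ∉ excE P (AddSubgroup.closure (Set.range w)) u Z) →
      ∃ g : ℂ → PN N, HolomorphicInto g (Metric.ball 0 1) ∧ ∀ z ∈ puncturedDisc, g z = f z) ∧
    (∀ (Q : Ideal (MvPolynomial (Fin (N + 1)) ℂ)) [Q.IsPrime], Homog Q → P ≤ Q →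
      ¬ projVar Q ⊆ excE P (AddSubgroup.closure (Set.range w)) u Z →
      ∀ k, 1 ≤ k → (∃ z : Fin k → FunField Q, IsTranscendenceBasis ℂ z) → GT Q k) ∧
    ∃ (Q : MvPolynomial (Fin (N + 1)) ℂ) (D : ℕ), Q.IsHomogeneous D ∧ (∃ x ∈ projVar P, ¬ VanishesAt Q x) ∧
      KobayashiHyperbolicModulo (projVar P) Q D := by
  have hΛ := lat_of_basis hw
  have hfin := sections_finite hP hz hsm hgt hΛ hu hfib
  set S := sections (projVar P) (AddSubgroup.closure (Set.range w)) u with hS
  have haff := fun (g : ℂ → PN N) hg hgo hgX => exists_affine hP hz hsm hΛ hu (g := g) hg hgo hgX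
  -- the exceptional set
  set Ξ : Set (PN N) := excE P (AddSubgroup.closure (Set.range w)) u Z with hΞ
  have hcl : ZariskiClosedIn (projVar P) Ξ := closed_union hZ.1
    (closed_biUnion hfin fun f hf => closed_zariskiClosure hf.2.1)
  have hX : ∃ i, (X i : MvPolynomial (Fin (N + 1)) ℂ) ∉ P := by
    by_contra hcon
    push Not at hcon
    have hempty : projVar P = ∅ := by
      rw [Set.eq_empty_iff_forall_notMem]
      intro x hx
      obtain ⟨i, hi⟩ := exists_coord hx
      exact hi (hcon i)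
    apply hZ.2
    obtain ⟨T, -, hT⟩ := hZ.1
    rw [hT, hempty]
    ext x
    simp
  have hpr : Ξ ≠ projVar P := by
    intro heq
    obtain ⟨R, n, hR, hRP, hRZ⟩ := exists_form_of_ne hZ.1 hZ.2
    obtain ⟨R', n', hR', hRP', hRU⟩ := exists_prod (P := P) hfin (A := fun f => zariskiClosure f) (by
      intro f hf
      obtain ⟨Q, d, hQ, hQP, hQf⟩ := sections_form hP hz hsm hgt hw hu hfib hf
      exact ⟨Q, d, hQ, hQP, fun x hx => hx Q d hQ hQf⟩)
    obtain ⟨x, hx, hxR⟩ := exists_point hP hX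
      (fun h : R * R' ∈ P => ((inferInstance : P.IsPrime).mem_or_mem h).elim hRP hRP') (hR.mul hR')
    apply hxR
    unfold VanishesAt
    rw [map_mul]
    rw [← heq] at hx
    rcases hx with hx | hx
    · have := hRZ x hx
      unfold VanishesAt at this
      rw [this, zero_mul]
    · have := hRU x hx
      unfold VanishesAt at this
      rw [this, mul_zero]
  have hbr : ∀ f : ℂ → PN N, HolomorphicInto f Set.univ → OrderTwo f → (∀ z, f z ∈ projVar P) → (∃ z w, f z ≠ f w) →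
      ∀ z, f z ∈ Ξ := by
    intro g hg hgo hgX hgn z
    rcases haff g hg hgo hgX with h | ⟨f, hf, a, b, ha, hgf⟩
    · exact Or.inl ((hfib g hg hgX h hgn).1 z)
    · refine Or.inr (Set.mem_biUnion hf ?_)
      rw [hgf z]
      exact fun Q n _ hQ => hQ _
  -- the projective case of the theorem on proper surfaces
  have hlv := locVar_one P
  have hproper : Pool.Agent.H62.SA.IsProperMap P (fun _ : Fin 1 => (1 : MvPolynomial (Fin (N + 1)) ℂ))
      (fun _ (_ : Fin (0 + 1)) => 1) (fun _ => 0) := by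
    refine ⟨fun _ _ => isHomogeneous_one _ _, fun _ => rfl, fun _ _ _ => ?_, fun x _ => ⟨0, 0, ?_⟩⟩
    · rw [mul_one, sub_self]
      exact P.zero_mem
    · unfold VanishesAt
      simp
  have hgt' : IsLogGeneralType (K := FunField P) (k := 2)
      (Pool.Agent.H62.SA.OnBd P (fun _ : Fin 1 => (1 : MvPolynomial (Fin (N + 1)) ℂ))) := by
    rw [onBd_one]
    exact hgt
  have hmain := Pool.Agent.H62.SA.proper_main (G := fun _ : Fin 1 => (1 : MvPolynomial (Fin (N + 1)) ℂ)) hP hz hsm hproper hgt'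
    (Ξ := Ξ) (by rw [hlv]; exact hcl) (by rw [hlv]; exact hpr) (by rw [hlv]; exact hbr)
  rw [hlv] at hmain
  obtain ⟨hbrody, hpicard, Q, D, hQ, hQx, -, hkob⟩ := hmain
  refine ⟨⟨hcl, hpr⟩, hbrody, hpicard, ?_, Q, D, hQ, hQx, hkob⟩
  intro Q _ hQ hPQ hsub k hk hz'
  have h1 := Pool.Agent.H13.CV.strongly_of_brodyL P hP ⟨z, hz⟩ (G := fun _ : Fin 1 => (1 : MvPolynomial (Fin (N + 1)) ℂ))
    (fun _ => ⟨0, isHomogeneous_one _ _⟩) (Ξ := Ξ) (by rw [hlv]; exact hcl) hgt' (by rw [hlv]; exact hbrody) Q hQ hPQ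
    (by rw [locVar_one]; exact hsub) k hk hz'
  rw [onBd_one] at h1
  exact h1

end

end Pool.Agent.H17EF
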