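import Pool.Agent.H62.SA.Defs
import Pool.Agent.H17.EntireCurves

/-!
# EF PNDefs: holomorphic maps from a projective surface to a complex torus
-/

set_option autoImplicit false

open Topology Filter MvPolynomial

noncomputable section

namespace Pool.Agent.H17EF

open Pool.Agent.H17 (PN VanishesAt HolomorphicInto)

variable {N : ℕ}

/-- The closed subvariety of `ℙ^N` given by the homogeneous ideal `P`. -/
def projVar (P : Ideal (MvPolynomial (Fin (N + 1)) ℂ)) : Set (PN N) :=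
  {x | ∀ Q ∈ P, ∀ n, Q.IsHomogeneous n → VanishesAt Q x}

/-- `u` is a holomorphic map from the closed subset `X` of `ℙ^N` to `ℂ / Λ`: near every point it is given by a holomorphic function of the
homogeneous coordinates. -/
def IsHolomorphicMap (X : Set (PN N)) (Λ : AddSubgroup ℂ) (u : PN N → ℂ ⧸ Λ) : Prop :=
  ∀ (x : Fin (N + 1) → ℂ) (hx : x ≠ 0), Projectivization.mk ℂ x hx ∈ X → ∃ v : (Fin (N + 1) → ℂ) → ℂ, AnalyticAt ℂ v x ∧
    ∀ᶠ y in 𝓝 x, ∀ hy : y ≠ 0, Projectivization.mk ℂ y hy ∈ X → u (Projectivization.mk ℂ y hy) = (v y : ℂ ⧸ Λ)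

/-- The point `x` of the surface `X` is a node of its fibre under `u`: there are holomorphic coordinates `s, t` of `X` with centre `x` such that
`u = c + s t` near `x` (`σ` is the parametrisation of `X` by the coordinates, and `τ` its inverse, in homogeneous coordinates). -/
def IsFibreNode (X : Set (PN N)) (Λ : AddSubgroup ℂ) (u : PN N → ℂ ⧸ Λ) (x : PN N) : Prop :=
  ∃ (σ : ℂ × ℂ → Fin (N + 1) → ℂ) (τ : (Fin (N + 1) → ℂ) → ℂ × ℂ) (c : ℂ), AnalyticAt ℂ σ 0 ∧ AnalyticAt ℂ τ (σ 0) ∧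
    (∃ h : σ 0 ≠ 0, Projectivization.mk ℂ (σ 0) h = x) ∧ (∀ᶠ p in 𝓝 (0 : ℂ × ℂ), τ (σ p) = p) ∧
    (∀ᶠ y in 𝓝 (σ 0), ∀ hy : y ≠ 0, Projectivization.mk ℂ y hy ∈ X → ∃ a : ℂ, a ≠ 0 ∧ y = a • σ (τ y)) ∧
    ∀ᶠ p in 𝓝 (0 : ℂ × ℂ), ∃ h : σ p ≠ 0, Projectivization.mk ℂ (σ p) h ∈ X ∧
      u (Projectivization.mk ℂ (σ p) h) = ((c + p.1 * p.2 : ℂ) : ℂ ⧸ Λ)

/-- Every non-constant entire curve in a fibre of `u` lies in `Z` and passes at least twice through nodes of the fibre. -/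
def FibreCondition (X : Set (PN N)) (Λ : AddSubgroup ℂ) (u : PN N → ℂ ⧸ Λ) (Z : Set (PN N)) : Prop :=
  ∀ f : ℂ → PN N, HolomorphicInto f Set.univ → (∀ z, f z ∈ X) → (∀ z w, u (f z) = u (f w)) → (∃ z w, f z ≠ f w) →
    (∀ z, f z ∈ Z) ∧ ∃ z w, z ≠ w ∧ IsFibreNode X Λ u (f z) ∧ IsFibreNode X Λ u (f w)

/-- The entire curves `f` in `X` with `u (f z) = z` modulo `Λ`. -/
def sections (X : Set (PN N)) (Λ : AddSubgroup ℂ) (u : PN N → ℂ ⧸ Λ) : Set (ℂ → PN N) :=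
  {f | HolomorphicInto f Set.univ ∧ (∀ z, f z ∈ X) ∧ ∀ z, u (f z) = (z : ℂ ⧸ Λ)}

end Pool.Agent.H17EF
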