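import Mathlib

/-!
# EF Zeros: a bounded holomorphic function with many zeros is small at the centre
-/

set_option autoImplicit false

namespace Pool.Agent.H17EF

open Metric Filter Topology

/-- division by one linear factor -/
theorem div_one {g : ℂ → ℂ} {r B : ℝ} (hg : DifferentiableOn ℂ g (ball 0 r))
    (hB : ∀ z ∈ ball (0 : ℂ) r, ‖g z‖ ≤ B) {w : ℂ} (hw : ‖w‖ ≤ r / 4) (hr : 0 < r) (h0 : g w = 0) :
    DifferentiableOn ℂ (dslope g w) (ball 0 r) ∧ (∀ z, g z = (z - w) * dslope g w z) ∧
      ∀ z ∈ ball (0 : ℂ) r, ‖dslope g w z‖ ≤ B * (4 / (3 * r)) := by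
  have hwb : w ∈ ball (0 : ℂ) r := by
    rw [mem_ball_zero_iff]
    linarith
  have hd : DifferentiableOn ℂ (dslope g w) (ball 0 r) :=
    (Complex.differentiableOn_dslope (isOpen_ball.mem_nhds hwb)).2 hg
  have hfac : ∀ z, g z = (z - w) * dslope g w z := by
    intro z
    have h1 : (z - w) • dslope g w z = g z - g w := sub_smul_dslope g w z
    rw [h0, sub_zero, smul_eq_mul] at h1
    exact h1.symm
  refine ⟨hd, hfac, fun z hz => ?_⟩
  rw [mem_ball_zero_iff] at hz
  have hB0 : 0 ≤ B := (norm_nonneg _).trans (hB 0 (mem_ball_self hr))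
  -- the estimate with a smaller radius
  have key : ∀ s : ℝ, ‖z‖ < s → r / 2 < s → s < r → ‖dslope g w z‖ ≤ B / (s - r / 4) := by
    intro s hzs hs hsr
    have hs0 : 0 < s := by linarith
    have hsub : closedBall (0 : ℂ) s ⊆ ball 0 r := closedBall_subset_ball hsr
    have hdc : DiffContOnCl ℂ (dslope g w) (ball 0 s) := by
      apply DifferentiableOn.diffContOnCl
      rw [closure_ball _ hs0.ne']
      exact hd.mono hsub
    refine Complex.norm_le_of_forall_mem_frontier_norm_le isBounded_ball hdc ?_ (z := z) ?_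
    · intro ζ hζ
      rw [frontier_ball _ hs0.ne', mem_sphere_zero_iff_norm] at hζ
      have hζr : ζ ∈ ball (0 : ℂ) r := by rw [mem_ball_zero_iff, hζ]; exact hsr
      have h1 := hB ζ hζr
      rw [hfac ζ, norm_mul] at h1
      have h2 : s - r / 4 ≤ ‖ζ - w‖ := by
        have := norm_sub_norm_le ζ w
        rw [hζ] at this
        linarith
      have h3 : 0 < s - r / 4 := by linarith
      rw [le_div_iff₀ h3]
      calc ‖dslope g w ζ‖ * (s - r / 4) ≤ ‖dslope g w ζ‖ * ‖ζ - w‖ := mul_le_mul_of_nonneg_left h2 (norm_nonneg _)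
        _ = ‖ζ - w‖ * ‖dslope g w ζ‖ := mul_comm _ _
        _ ≤ B := h1
    · apply subset_closure
      rw [mem_ball_zero_iff]
      exact hzs
  -- the limit `s → r`
  have hlim : Tendsto (fun s : ℝ => B / (s - r / 4)) (𝓝[<] r) (𝓝 (B / (r - r / 4))) := by
    have h1 : ContinuousAt (fun s : ℝ => B / (s - r / 4)) r := by
      apply ContinuousAt.div continuousAt_const (by fun_prop)
      linarith
    exact h1.tendsto.mono_left nhdsWithin_le_nhds
  have hev : ∀ᶠ s in 𝓝[<] r, ‖dslope g w z‖ ≤ B / (s - r / 4) := by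
    have h1 : ∀ᶠ s : ℝ in 𝓝[<] r, ‖z‖ < s := (eventually_gt_nhds hz).filter_mono nhdsWithin_le_nhds
    have h2 : ∀ᶠ s : ℝ in 𝓝[<] r, r / 2 < s := (eventually_gt_nhds (by linarith)).filter_mono nhdsWithin_le_nhds
    have h3 : ∀ᶠ s : ℝ in 𝓝[<] r, s < r := eventually_mem_nhdsWithin
    filter_upwards [h1, h2, h3] with s hs1 hs2 hs3
    exact key s hs1 hs2 hs3
  have h4 := ge_of_tendsto hlim hev
  have h5 : B / (r - r / 4) = B * (4 / (3 * r)) := by
    field_simp
    ring
  rwa [h5] at h4

/-- division by finitely many linear factors -/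
theorem div_list {r B : ℝ} (hr : 0 < r) : ∀ (l : List ℂ) {g : ℂ → ℂ}, DifferentiableOn ℂ g (ball 0 r) →
    (∀ z ∈ ball (0 : ℂ) r, ‖g z‖ ≤ B) → (∀ w ∈ l, ‖w‖ ≤ r / 4) → (∀ w, ((l.count w : ℕ) : ℕ∞) ≤ analyticOrderAt g w) →
    ∃ g' : ℂ → ℂ, DifferentiableOn ℂ g' (ball 0 r) ∧ (∀ z, g z = (l.map fun w => z - w).prod * g' z) ∧
      ∀ z ∈ ball (0 : ℂ) r, ‖g' z‖ ≤ B * (4 / (3 * r)) ^ l.length := by
  intro l
  induction l generalizing B with
  | nil =>
    intro g hg hB _ _
    exact ⟨g, hg, by simp, by simpa using hB⟩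
  | cons w l ih =>
    intro g hg hB hl hord
    have hw : ‖w‖ ≤ r / 4 := hl w (List.mem_cons_self)
    have hwb : w ∈ ball (0 : ℂ) r := by
      rw [mem_ball_zero_iff]
      linarith
    have hgan : ∀ z ∈ ball (0 : ℂ) r, AnalyticAt ℂ g z := fun z hz => hg.analyticAt (isOpen_ball.mem_nhds hz)
    have h0 : g w = 0 := by
      have h1 := hord w
      rw [List.count_cons_self] at h1
      have h2 : analyticOrderAt g w ≠ 0 := by
        intro h3
        rw [h3] at h1
        simp at h1
      by_contra h3
      exact h2 ((hgan w hwb).analyticOrderAt_eq_zero.2 h3)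
    obtain ⟨h1, h2, h3⟩ := div_one hg hB hw hr h0
    have h1an : ∀ z ∈ ball (0 : ℂ) r, AnalyticAt ℂ (dslope g w) z := fun z hz => h1.analyticAt (isOpen_ball.mem_nhds hz)
    obtain ⟨g', h4, h5, h6⟩ := ih (B := B * (4 / (3 * r))) h1 h3 (fun v hv => hl v (List.mem_cons_of_mem _ hv)) (by
      intro v
      by_cases hv : v ∈ l
      · have hvb : v ∈ ball (0 : ℂ) r := by
          have := hl v (List.mem_cons_of_mem _ hv)
          rw [mem_ball_zero_iff]
          linarith
        have hfun : g = (fun z => z - w) * dslope g w := by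
          funext z
          rw [Pi.mul_apply]
          exact h2 z
        have hlin : AnalyticAt ℂ (fun z : ℂ => z - w) v := by fun_prop
        have h7 : analyticOrderAt g v = analyticOrderAt (fun z : ℂ => z - w) v + analyticOrderAt (dslope g w) v := by
          conv_lhs => rw [hfun]
          exact analyticOrderAt_mul hlin (h1an v hvb)
        have h8 := hord v
        rw [h7] at h8
        by_cases hvw : v = w
        · subst hvw
          rw [List.count_cons_self] at h8
          have h9 : analyticOrderAt (fun z : ℂ => z - v) v = 1 := by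
            apply AnalyticAt.analyticOrderAt_eq_one_of_zero_deriv_ne_zero hlin (sub_self v)
            simp
          rw [h9] at h8
          push_cast at h8
          rw [add_comm] at h8
          exact (ENat.add_le_add_iff_left (by simp)).1 h8
        · rw [List.count_cons_of_ne (Ne.symm hvw)] at h8
          have h9 : analyticOrderAt (fun z : ℂ => z - w) v = 0 := by
            apply hlin.analyticOrderAt_eq_zero.2
            exact sub_ne_zero.2 hvw
          rwa [h9, zero_add] at h8
      · rw [List.count_eq_zero_of_not_mem hv]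
        simp)
    refine ⟨g', h4, fun z => ?_, fun z hz => ?_⟩
    · rw [h2 z, h5 z, List.map_cons, List.prod_cons, mul_assoc]
    · have := h6 z hz
      rw [List.length_cons, pow_succ']
      calc _ ≤ _ := this
        _ = _ := by ring

end Pool.Agent.H17EF
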