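import Pool.Agent.H17EF.Count
import Pool.Agent.H17EF.Zeros
import Pool.Agent.H36.BP.OrdDefs

/-!
# EF Alg: doubly periodic entire curves of order two on a surface are algebraically degenerate
-/

set_option autoImplicit false

open MvPolynomial

noncomputable section

namespace Pool.Agent.H17EF

open Metric Filter Topology
open Pool.Agent.H36.BP (OrdTwo)
open Pool.Agent.H17LG.Variety (FunField)
open Pool.Agent.H62.FC (Homog)

variable {N : ℕ}

theorem eval_smul_form {d : ℕ} {Q : MvPolynomial (Fin (N + 1)) ℂ} (hQ : Q.IsHomogeneous d) (c : ℂ)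
    (x : Fin (N + 1) → ℂ) : eval (c • x) Q = c ^ d * eval x Q := by
  rw [MvPolynomial.eval_eq', MvPolynomial.eval_eq', Finset.mul_sum]
  apply Finset.sum_congr rfl
  intro m hm
  have hdeg : ∑ i, m i = d := by
    have := hQ (MvPolynomial.mem_support_iff.1 hm)
    rw [Finsupp.weight_apply] at this
    simpa [Finsupp.sum_fintype] using this
  have h1 : ∏ i, (c • x) i ^ m i = c ^ d * ∏ i, x i ^ m i := by
    rw [← hdeg, ← Finset.prod_pow_eq_pow_sum, ← Finset.prod_mul_distrib]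
    exact Finset.prod_congr rfl fun i _ => by simp [mul_pow]
  rw [h1]
  ring

/-- `w` is a period of the curve `F` in projective space -/
def IsPeriod (F : ℂ → Fin (N + 1) → ℂ) (w : ℂ) : Prop := ∀ z, ∃ c : ℂ, c ≠ 0 ∧ F (z + w) = c • F z

theorem IsPeriod.zero (F : ℂ → Fin (N + 1) → ℂ) : IsPeriod F 0 := fun z => ⟨1, one_ne_zero, by simp⟩

theorem IsPeriod.add {F : ℂ → Fin (N + 1) → ℂ} {v w : ℂ} (hv : IsPeriod F v) (hw : IsPeriod F w) : IsPeriod F (v + w) := by
  intro z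
  obtain ⟨c, hc, h⟩ := hv z
  obtain ⟨c', hc', h'⟩ := hw (z + v)
  exact ⟨c' * c, mul_ne_zero hc' hc, by rw [← add_assoc, h', h, smul_smul]⟩

theorem IsPeriod.neg {F : ℂ → Fin (N + 1) → ℂ} {v : ℂ} (hv : IsPeriod F v) : IsPeriod F (-v) := by
  intro z
  obtain ⟨c, hc, h⟩ := hv (z + -v)
  refine ⟨c⁻¹, inv_ne_zero hc, ?_⟩
  rw [neg_add_cancel_right] at h
  rw [h, smul_smul, inv_mul_cancel₀ hc, one_smul]

theorem IsPeriod.nsmul {F : ℂ → Fin (N + 1) → ℂ} {v : ℂ} (hv : IsPeriod F v) (n : ℕ) : IsPeriod F ((n : ℂ) * v) := by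
  induction n with
  | zero => simpa using IsPeriod.zero F
  | succ n ih =>
    have h1 : ((n + 1 : ℕ) : ℂ) * v = (n : ℂ) * v + v := by push_cast; ring
    rw [h1]
    exact ih.add hv

theorem IsPeriod.zsmul {F : ℂ → Fin (N + 1) → ℂ} {v : ℂ} (hv : IsPeriod F v) (n : ℤ) : IsPeriod F ((n : ℂ) * v) := by
  obtain ⟨m, rfl | rfl⟩ := n.eq_nat_or_neg
  · simpa using hv.nsmul m
  · have := (hv.nsmul m).neg
    have h1 : (((-(m : ℤ) : ℤ)) : ℂ) * v = -((m : ℂ) * v) := by push_cast; ring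
    rw [h1]
    exact this

/-- the quotient of two lifts is holomorphic -/
theorem exists_quot {F G : ℂ → Fin (N + 1) → ℂ} {z₀ : ℂ} (hF : AnalyticAt ℂ F z₀) (hG : AnalyticAt ℂ G z₀) (h0 : F z₀ ≠ 0)
    (h : ∀ᶠ z in 𝓝 z₀, G z = 0 ∨ ∃ c : ℂ, c ≠ 0 ∧ F z = c • G z) :
    ∃ u : ℂ → ℂ, AnalyticAt ℂ u z₀ ∧ ∀ᶠ z in 𝓝 z₀, G z = u z • F z := by
  obtain ⟨i, hi⟩ : ∃ i, F z₀ i ≠ 0 := by
    by_contra hcon
    push Not at hcon
    exact h0 (_root_.funext hcon)
  have hFi : AnalyticAt ℂ (fun z => F z i) z₀ :=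
    ((ContinuousLinearMap.proj (R := ℂ) (φ := fun _ : Fin (N + 1) => ℂ) i).analyticAt (F z₀)).comp hF
  have hGi : AnalyticAt ℂ (fun z => G z i) z₀ :=
    ((ContinuousLinearMap.proj (R := ℂ) (φ := fun _ : Fin (N + 1) => ℂ) i).analyticAt (G z₀)).comp hG
  refine ⟨fun z => G z i / F z i, hGi.div hFi hi, ?_⟩
  filter_upwards [h, hFi.continuousAt.eventually_ne hi] with z hz hz'
  rcases hz with hz | ⟨c, hc, hz⟩
  · rw [hz]
    simp
  · have h1 : F z i = c * G z i := by rw [hz]; simp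
    have h2 : G z i ≠ 0 := by
      intro h3
      rw [h3, mul_zero] at h1
      exact hz' h1
    rw [hz]
    simp only [Pi.smul_apply, smul_eq_mul, smul_smul]
    have h3 : G z i / (c * G z i) * c = 1 := by field_simp
    rw [h3, one_smul]

theorem analyticAt_eval {F : ℂ → Fin (N + 1) → ℂ} {z₀ : ℂ} (hF : AnalyticAt ℂ F z₀) (Q : MvPolynomial (Fin (N + 1)) ℂ) :
    AnalyticAt ℂ (fun z => eval (F z) Q) z₀ := by
  have h1 : AnalyticAt ℂ (fun x : Fin (N + 1) → ℂ => eval x Q) (F z₀) := by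
    have := AnalyticAt.aeval_mvPolynomial (𝕜 := ℂ) (A := ℂ) (f := fun (x : Fin (N + 1) → ℂ) i => x i) (z := F z₀)
      (fun i => (ContinuousLinearMap.proj (R := ℂ) (φ := fun _ : Fin (N + 1) => ℂ) i).analyticAt _) Q
    simpa [MvPolynomial.aeval_eq_eval] using this
  exact h1.comp hF

/-- a bound for a polynomial on the unit ball -/
theorem exists_bound (Q : MvPolynomial (Fin (N + 1)) ℂ) : ∃ B : ℝ, 0 < B ∧ ∀ x : Fin (N + 1) → ℂ, ‖x‖ ≤ 1 → ‖eval x Q‖ ≤ B := by
  have hc : Continuous fun x : Fin (N + 1) → ℂ => ‖eval x Q‖ := (MvPolynomial.continuous_eval Q).norm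
  obtain ⟨B, hB⟩ := (isCompact_closedBall (0 : Fin (N + 1) → ℂ) 1).exists_bound_of_continuousOn hc.continuousOn
  refine ⟨max B 1, by positivity, fun x hx => ?_⟩
  have := hB x (by rwa [mem_closedBall_zero_iff])
  rw [norm_norm] at this
  exact this.trans (le_max_left _ _)

/-- the order of vanishing at a period -/
theorem le_order_of_period {F : ℂ → Fin (N + 1) → ℂ} (hF : Differentiable ℂ F) (h0 : ∀ z, F z ≠ 0) {w : ℂ} (hw : IsPeriod F w)
    {Q : MvPolynomial (Fin (N + 1)) ℂ} {d : ℕ} (hQ : Q.IsHomogeneous d) {μ : ℕ}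
    (hμ : (μ : ℕ∞) ≤ analyticOrderAt (fun z => eval (F z) Q) 0) : (μ : ℕ∞) ≤ analyticOrderAt (fun z => eval (F z) Q) w := by
  have hadd : AnalyticAt ℂ (fun z : ℂ => z - w) w := by fun_prop
  have h1 : AnalyticAt ℂ (fun z => F (z - w)) w := (hF.comp (differentiable_id.sub_const w)).analyticAt w
  obtain ⟨u, hu, hu'⟩ := exists_quot (F := fun z => F (z - w)) (G := F) h1 (hF.analyticAt w) (h0 _) (Eventually.of_forall fun z => by
    obtain ⟨c, hc, h⟩ := hw (z - w)
    right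
    refine ⟨c⁻¹, inv_ne_zero hc, ?_⟩
    rw [sub_add_cancel] at h
    rw [h, smul_smul, inv_mul_cancel₀ hc, one_smul])
  rw [natCast_le_analyticOrderAt (analyticAt_eval (hF.analyticAt 0) Q)] at hμ
  obtain ⟨g, hg, hg'⟩ := hμ
  rw [natCast_le_analyticOrderAt (analyticAt_eval (hF.analyticAt w) Q)]
  have ht : Tendsto (fun z : ℂ => z - w) (𝓝 w) (𝓝 0) := by
    have := hadd.continuousAt.tendsto
    rwa [sub_self] at this
  refine ⟨fun z => u z ^ d * g (z - w), (hu.pow d).mul ?_, ?_⟩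
  · have hg2 : AnalyticAt ℂ g (w - w) := by rwa [sub_self]
    exact AnalyticAt.comp (g := g) (f := fun z : ℂ => z - w) hg2 hadd
  · filter_upwards [hu', ht.eventually hg'] with z hz1 hz2
    rw [hz1, eval_smul_form hQ, hz2]
    simp only [smul_eq_mul, sub_zero]
    ring

/-- the estimate for one radius -/
theorem main_estimate {F : ℂ → Fin (N + 1) → ℂ} (hF : Differentiable ℂ F) (h0 : ∀ z, F z ≠ 0) {C₀ : ℝ}
    (hord : ∀ r : ℝ, 0 < r → ∃ G : ℂ → Fin (N + 1) → ℂ, DifferentiableOn ℂ G (ball 0 r) ∧ (∀ z ∈ ball (0 : ℂ) r, ‖G z‖ ≤ 1) ∧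
      Real.exp (-(C₀ * (1 + r ^ 2))) ≤ ‖G 0‖ ∧ ∀ z ∈ ball (0 : ℂ) r, G z = 0 ∨ ∃ c : ℂ, c ≠ 0 ∧ F z = c • G z)
    {Q : MvPolynomial (Fin (N + 1)) ℂ} {d : ℕ} (hQ : Q.IsHomogeneous d) {μ m : ℕ}
    (hμ : (μ : ℕ∞) ≤ analyticOrderAt (fun z => eval (F z) Q) 0) {φ : ℂ → ℂ} (hφ : AnalyticAt ℂ φ 0)
    (hφ1 : ∀ᶠ z in 𝓝 (0 : ℂ), eval (F z) Q = z ^ m * φ z) {B : ℝ} (hB0 : 0 < B)
    (hB : ∀ x : Fin (N + 1) → ℂ, ‖x‖ ≤ 1 → ‖eval x Q‖ ≤ B) (S : Finset ℂ) (hS0 : (0 : ℂ) ∉ S) (hSp : ∀ w ∈ S, IsPeriod F w)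
    {r : ℝ} (hr : 4 / 3 ≤ r) (hSr : ∀ w ∈ S, ‖w‖ ≤ r / 4) :
    Real.exp (-(C₀ * (1 + r ^ 2))) ^ d * ‖φ 0‖ ≤ ‖F 0‖ ^ d * (B * (1 / 3) ^ (μ * S.card)) := by
  classical
  have hr0 : 0 < r := by linarith
  obtain ⟨G, hG, hG1, hG0, hGF⟩ := hord r hr0
  have hGan : ∀ z ∈ ball (0 : ℂ) r, AnalyticAt ℂ G z := fun z hz => hG.analyticAt (isOpen_ball.mem_nhds hz)
  have hquot : ∀ z₀ ∈ ball (0 : ℂ) r, ∃ u : ℂ → ℂ, AnalyticAt ℂ u z₀ ∧ ∀ᶠ z in 𝓝 z₀, G z = u z • F z := fun z₀ hz₀ =>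
    exists_quot (hF.analyticAt z₀) (hGan z₀ hz₀) (h0 z₀) (by
      filter_upwards [isOpen_ball.mem_nhds hz₀] with z hz
      exact hGF z hz)
  set g : ℂ → ℂ := fun z => eval (G z) Q with hg
  have hgan : ∀ z ∈ ball (0 : ℂ) r, AnalyticAt ℂ g z := fun z hz => analyticAt_eval (hGan z hz) Q
  have hgd : DifferentiableOn ℂ g (ball 0 r) := fun z hz => (hgan z hz).differentiableAt.differentiableWithinAt
  have hgB : ∀ z ∈ ball (0 : ℂ) r, ‖g z‖ ≤ B := fun z hz => hB _ (hG1 z hz)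
  -- the orders at the periods
  have hordS : ∀ w ∈ S, (μ : ℕ∞) ≤ analyticOrderAt g w := by
    intro w hw
    have hwb : w ∈ ball (0 : ℂ) r := by
      rw [mem_ball_zero_iff]
      linarith [hSr w hw]
    obtain ⟨u, hu, hu'⟩ := hquot w hwb
    have h1 := le_order_of_period hF h0 (hSp w hw) hQ hμ
    rw [natCast_le_analyticOrderAt (analyticAt_eval (hF.analyticAt w) Q)] at h1
    obtain ⟨g₁, hg₁, hg₁'⟩ := h1
    rw [natCast_le_analyticOrderAt (hgan w hwb)]
    refine ⟨fun z => u z ^ d * g₁ z, (hu.pow d).mul hg₁, ?_⟩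
    filter_upwards [hu', hg₁'] with z hz1 hz2
    simp only [hg]
    rw [hz1, eval_smul_form hQ, hz2]
    simp only [smul_eq_mul]
    ring
  -- division by the zeros outside `0`
  obtain ⟨l, hl⟩ : ∃ l : List ℂ, l = (List.replicate μ S.toList).flatten := ⟨_, rfl⟩
  have hlmem : ∀ w ∈ l, w ∈ S := by
    intro w hw
    rw [hl, List.mem_flatten] at hw
    obtain ⟨l', hl', hw⟩ := hw
    rw [List.mem_replicate] at hl'
    rw [hl'.2, Finset.mem_toList] at hw
    exact hw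
  have hlcount : ∀ w, l.count w = if w ∈ S then μ else 0 := by
    intro w
    rw [hl, List.count_flatten, List.map_replicate, List.sum_replicate]
    split_ifs with hw
    · rw [List.count_eq_one_of_mem S.nodup_toList (Finset.mem_toList.2 hw)]
      simp
    · rw [List.count_eq_zero_of_not_mem (by rwa [Finset.mem_toList])]
      simp
  have hllen : l.length = μ * S.card := by
    rw [hl, List.length_flatten, List.map_replicate, List.sum_replicate, Finset.length_toList]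
    simp
  obtain ⟨g₁, h1d, h1f, h1B⟩ := div_list hr0 l hgd hgB (fun w hw => hSr w (hlmem w hw)) (by
    intro w
    rw [hlcount]
    split_ifs with hw
    · exact hordS w hw
    · simp)
  have h0b : (0 : ℂ) ∈ ball (0 : ℂ) r := mem_ball_self hr0
  obtain ⟨u, hu, hu'⟩ := hquot 0 h0b
  -- the product of the linear factors
  set pr : ℂ → ℂ := fun z => (l.map fun w => z - w).prod with hprd
  have hpran : AnalyticAt ℂ pr 0 := by
    have : ∀ l : List ℂ, Differentiable ℂ fun z : ℂ => (l.map fun w => z - w).prod := by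
      intro l
      induction l with
      | nil => simp
      | cons a l ih =>
        simp only [List.map_cons, List.prod_cons]
        exact (differentiable_id.sub_const a).mul ih
    exact (this l).analyticAt 0
  have hpr0 : pr 0 ≠ 0 := by
    simp only [hprd]
    apply List.prod_ne_zero
    intro h
    rw [List.mem_map] at h
    obtain ⟨w, hw, hw'⟩ := h
    rw [zero_sub, neg_eq_zero] at hw'
    subst hw'
    exact hS0 (hlmem _ hw)
  have hg₁an : AnalyticAt ℂ g₁ 0 := h1d.analyticAt (isOpen_ball.mem_nhds h0b)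
  -- the order at `0`
  have hordm : ∀ w, (((List.replicate m (0 : ℂ)).count w : ℕ) : ℕ∞) ≤ analyticOrderAt g₁ w := by
    intro w
    by_cases hw : w = 0
    · subst hw
      rw [List.count_replicate_self]
      rw [natCast_le_analyticOrderAt hg₁an]
      refine ⟨fun z => u z ^ d * φ z / pr z, ((hu.pow d).mul hφ).div hpran hpr0, ?_⟩
      filter_upwards [hu', hφ1, hpran.continuousAt.eventually_ne hpr0] with z hz1 hz2 hz3
      have hz4 : g z = pr z * g₁ z := h1f z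
      have hz5 : g z = u z ^ d * (z ^ m * φ z) := by
        simp only [hg]
        rw [hz1, eval_smul_form hQ, hz2]
      rw [hz5] at hz4
      simp only [smul_eq_mul, sub_zero]
      field_simp
      linear_combination -hz4
    · rw [List.count_replicate, if_neg (by simpa using (Ne.symm hw))]
      simp
  obtain ⟨g₂, h2d, h2f, h2B⟩ := div_list hr0 (List.replicate m (0 : ℂ)) h1d h1B (fun w hw => by
    rw [List.mem_replicate] at hw
    rw [hw.2, norm_zero]
    positivity) hordm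
  have hg₂an : AnalyticAt ℂ g₂ 0 := h2d.analyticAt (isOpen_ball.mem_nhds h0b)
  -- the value at `0`
  have hval : pr 0 * g₂ 0 = u 0 ^ d * φ 0 := by
    have h3 : ∀ᶠ z in 𝓝[≠] (0 : ℂ), pr z * g₂ z = u z ^ d * φ z := by
      have h4 : ∀ᶠ z in 𝓝[≠] (0 : ℂ), z ≠ 0 := eventually_mem_nhdsWithin
      filter_upwards [h4, hu'.filter_mono nhdsWithin_le_nhds, hφ1.filter_mono nhdsWithin_le_nhds] with z hz0 hz1 hz2
      have hz4 : g z = pr z * g₁ z := h1f z
      have hz5 : g z = u z ^ d * (z ^ m * φ z) := by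
        simp only [hg]
        rw [hz1, eval_smul_form hQ, hz2]
      have hz6 := h2f z
      rw [List.map_replicate, List.prod_replicate, sub_zero] at hz6
      have hz7 : z ^ m * (pr z * g₂ z) = z ^ m * (u z ^ d * φ z) := by
        rw [hz6] at hz4
        rw [hz5] at hz4
        linear_combination -hz4
      exact mul_left_cancel₀ (pow_ne_zero m hz0) hz7
    have h5 : ContinuousAt (fun z => pr z * g₂ z) 0 := hpran.continuousAt.mul hg₂an.continuousAt
    have h6 : ContinuousAt (fun z => u z ^ d * φ z) 0 := (hu.continuousAt.pow d).mul hφ.continuousAt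
    exact tendsto_nhds_unique_of_eventuallyEq (h5.tendsto.mono_left nhdsWithin_le_nhds)
      (h6.tendsto.mono_left nhdsWithin_le_nhds) h3
  have hprle : ‖pr 0‖ ≤ (r / 4) ^ l.length := by
    have : ∀ l : List ℂ, (∀ w ∈ l, ‖w‖ ≤ r / 4) → ‖(l.map fun w => (0 : ℂ) - w).prod‖ ≤ (r / 4) ^ l.length := by
      intro l
      induction l with
      | nil => simp
      | cons a l ih =>
        intro h
        simp only [List.map_cons, List.prod_cons, norm_mul, List.length_cons, pow_succ']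
        have h7 : ‖(0 : ℂ) - a‖ ≤ r / 4 := by
          rw [zero_sub, norm_neg]
          exact h a List.mem_cons_self
        exact mul_le_mul h7 (ih fun w hw => h w (List.mem_cons_of_mem _ hw)) (norm_nonneg _) (by positivity)
    exact this l fun w hw => hSr w (hlmem w hw)
  have hg₂le := h2B 0 h0b
  rw [List.length_replicate] at hg₂le
  have hsmall : (4 / (3 * r)) ^ m ≤ 1 := by
    apply pow_le_one₀ (by positivity)
    rw [div_le_one (by positivity)]
    linarith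
  have hmain : ‖u 0‖ ^ d * ‖φ 0‖ ≤ B * (1 / 3) ^ (μ * S.card) := by
    rw [← norm_pow, ← norm_mul, ← hval, norm_mul]
    calc ‖pr 0‖ * ‖g₂ 0‖ ≤ (r / 4) ^ l.length * (B * (4 / (3 * r)) ^ l.length * (4 / (3 * r)) ^ m) :=
          mul_le_mul hprle hg₂le (norm_nonneg _) (by positivity)
      _ ≤ (r / 4) ^ l.length * (B * (4 / (3 * r)) ^ l.length * 1) := by gcongr
      _ = B * ((r / 4) * (4 / (3 * r))) ^ l.length := by rw [mul_pow]; ring
      _ = B * (1 / 3) ^ (μ * S.card) := by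
        rw [hllen]
        congr 2
        field_simp
  have hGu : ‖G 0‖ = ‖u 0‖ * ‖F 0‖ := by
    rw [hu'.self_of_nhds, norm_smul]
  calc Real.exp (-(C₀ * (1 + r ^ 2))) ^ d * ‖φ 0‖ ≤ (‖u 0‖ * ‖F 0‖) ^ d * ‖φ 0‖ := by
        gcongr
        rwa [← hGu]
    _ = ‖F 0‖ ^ d * (‖u 0‖ ^ d * ‖φ 0‖) := by ring
    _ ≤ _ := mul_le_mul_of_nonneg_left hmain (by positivity)

/-- **Doubly periodic curves of order two on a surface are algebraically degenerate.** -/
theorem exists_form_of_periodic {P : Ideal (MvPolynomial (Fin (N + 1)) ℂ)} [P.IsPrime] {z : Fin 2 → FunField P}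
    (hz : IsTranscendenceBasis ℂ z) {F : ℂ → Fin (N + 1) → ℂ} (hF : Differentiable ℂ F) (h0 : ∀ z, F z ≠ 0) (hord : OrdTwo F)
    (hFP : ∀ z, ∀ Q ∈ P, eval (F z) Q = 0) {w₁ w₂ : ℂ} (hw : LinearIndependent ℝ ![w₁, w₂]) (h1 : IsPeriod F w₁)
    (h2 : IsPeriod F w₂) :
    ∃ (Q : MvPolynomial (Fin (N + 1)) ℂ) (d : ℕ), Q.IsHomogeneous d ∧ Q ∉ P ∧ ∀ z, eval (F z) Q = 0 := by
  classical
  obtain ⟨C₀, hord⟩ := hord
  have hX : ∃ i, (X i : MvPolynomial (Fin (N + 1)) ℂ) ∉ P := by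
    by_contra hcon
    push Not at hcon
    apply h0 0
    funext i
    have := hFP 0 _ (hcon i)
    simpa using this
  set M : ℝ := ‖w₁‖ + ‖w₂‖ with hM
  have hM0 : 0 ≤ M := by positivity
  obtain ⟨K, hK⟩ := exists_nat_ge (4 * |C₀| * M ^ 2 + 1)
  obtain ⟨d, hd, hL⟩ := exists_form_of_conditions hz hX K
  -- the linear conditions
  let L : MvPolynomial (Fin (N + 1)) ℂ →ₗ[ℂ] (Fin (K * d) → ℂ) :=
    { toFun := fun Q k => iteratedDeriv k (fun z => eval (F z) Q) 0
      map_add' := by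
        intro Q R
        funext k
        have e1 : (fun z => eval (F z) (Q + R)) = (fun z => eval (F z) Q) + fun z => eval (F z) R := by
          funext z; simp
        rw [e1, iteratedDeriv_add (analyticAt_eval (hF.analyticAt 0) Q).contDiffAt (analyticAt_eval (hF.analyticAt 0) R).contDiffAt]
        rfl
      map_smul' := by
        intro c Q
        funext k
        have e1 : (fun z => eval (F z) (c • Q)) = c • fun z => eval (F z) Q := by
          funext z; simp [MvPolynomial.smul_eval]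
        rw [e1, iteratedDeriv_const_smul (analyticAt_eval (hF.analyticAt 0) Q).contDiffAt]
        rfl }
  obtain ⟨Q, hQ, hQP, hLQ⟩ := hL L
  refine ⟨Q, d, hQ, hQP, ?_⟩
  have hμ : ((K * d : ℕ) : ℕ∞) ≤ analyticOrderAt (fun z => eval (F z) Q) 0 := by
    rw [natCast_le_analyticOrderAt_iff_iteratedDeriv_eq_zero (analyticAt_eval (hF.analyticAt 0) Q)]
    intro k hk
    exact congrFun hLQ ⟨k, hk⟩
  by_contra hcon
  -- the order at `0` is finite
  have hne : analyticOrderAt (fun z => eval (F z) Q) 0 ≠ ⊤ := by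
    intro htop
    apply hcon
    rw [analyticOrderAt_eq_top] at htop
    have h3 : AnalyticOnNhd ℂ (fun z => eval (F z) Q) Set.univ := fun z _ => analyticAt_eval (hF.analyticAt z) Q
    intro z
    exact h3.eqOn_zero_of_preconnected_of_eventuallyEq_zero isPreconnected_univ (Set.mem_univ 0) htop (Set.mem_univ z)
  obtain ⟨m, hm⟩ := ENat.ne_top_iff_exists.1 hne
  obtain ⟨φ, hφ, hφ0, hφ1⟩ := ((analyticAt_eval (hF.analyticAt 0) Q).analyticOrderAt_eq_natCast).1 hm.symm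
  obtain ⟨B, hB0, hB⟩ := exists_bound Q
  have hφ1' : ∀ᶠ z in 𝓝 (0 : ℂ), eval (F z) Q = z ^ m * φ z := by
    filter_upwards [hφ1] with z hz
    rw [hz]
    simp
  have hφpos : 0 < ‖φ 0‖ := norm_pos_iff.2 hφ0
  have hF0pos : 0 < ‖F 0‖ := norm_pos_iff.2 (h0 0)
  -- the lattice points
  let pt : ℤ × ℤ → ℂ := fun ab => (ab.1 : ℂ) * w₁ + (ab.2 : ℂ) * w₂
  have hinj : Function.Injective pt := by
    intro a b hab
    have h3 : ((a.1 - b.1 : ℤ) : ℝ) • w₁ + ((a.2 - b.2 : ℤ) : ℝ) • w₂ = 0 := by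
      simp only [Complex.real_smul]
      simp only [pt] at hab
      push_cast
      linear_combination hab
    have h4 := LinearIndependent.pair_iff.1 hw _ _ h3
    have h5 : a.1 - b.1 = 0 := by exact_mod_cast h4.1
    have h6 : a.2 - b.2 = 0 := by exact_mod_cast h4.2
    ext
    · omega
    · omega
  have est : ∀ T : ℕ, 1 ≤ T → 4 / 3 ≤ 4 * M * T →
      Real.exp (-(C₀ * (1 + (4 * M * T) ^ 2))) ^ d * ‖φ 0‖ ≤ ‖F 0‖ ^ d * (B * (1 / 3) ^ (K * d * (4 * T ^ 2))) := by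
    intro T hT hr
    set S₀ : Finset (ℤ × ℤ) := (Finset.Icc (-(T : ℤ)) T) ×ˢ (Finset.Icc (-(T : ℤ)) T) with hS₀
    set S : Finset ℂ := (S₀.erase (0, 0)).image pt with hS
    have hcard : S.card = (2 * T + 1) ^ 2 - 1 := by
      rw [hS, Finset.card_image_of_injective _ hinj, Finset.card_erase_of_mem, hS₀, Finset.card_product, Int.card_Icc]
      · congr 1
        have : ((T : ℤ) + 1 - -(T : ℤ)).toNat = 2 * T + 1 := by omega
        rw [this]
        ring
      · rw [hS₀, Finset.mem_product, Finset.mem_Icc]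
        constructor <;> constructor <;> simp
    have hcard' : 4 * T ^ 2 ≤ S.card := by
      rw [hcard]
      have : (2 * T + 1) ^ 2 = 4 * T ^ 2 + 4 * T + 1 := by ring
      omega
    have h3 := main_estimate hF h0 hord hQ hμ hφ hφ1' hB0 hB S ?_ ?_ hr ?_
    · refine h3.trans ?_
      have h4 : ((1 : ℝ) / 3) ^ (K * d * S.card) ≤ (1 / 3) ^ (K * d * (4 * T ^ 2)) :=
        pow_le_pow_of_le_one (by norm_num) (by norm_num) (Nat.mul_le_mul_left _ hcard')
      exact mul_le_mul_of_nonneg_left (mul_le_mul_of_nonneg_left h4 hB0.le) (by positivity)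
    · intro h4
      rw [hS, Finset.mem_image] at h4
      obtain ⟨ab, hab, h5⟩ := h4
      have h6 : pt (0, 0) = 0 := by simp [pt]
      rw [← h6] at h5
      have h7 := hinj h5
      subst h7
      simp at hab
    · intro w hwS
      rw [hS, Finset.mem_image] at hwS
      obtain ⟨ab, -, rfl⟩ := hwS
      exact (h1.zsmul ab.1).add (h2.zsmul ab.2)
    · intro w hwS
      rw [hS, Finset.mem_image] at hwS
      obtain ⟨ab, hab, rfl⟩ := hwS
      have hab' := Finset.mem_of_mem_erase hab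
      rw [hS₀, Finset.mem_product, Finset.mem_Icc, Finset.mem_Icc] at hab'
      have ha : |(ab.1 : ℝ)| ≤ T := by
        rw [abs_le]
        constructor
        · exact_mod_cast hab'.1.1
        · exact_mod_cast hab'.1.2
      have hb : |(ab.2 : ℝ)| ≤ T := by
        rw [abs_le]
        constructor
        · exact_mod_cast hab'.2.1
        · exact_mod_cast hab'.2.2
      have e1 : ‖((ab.1 : ℤ) : ℂ)‖ = |(ab.1 : ℝ)| := by
        rw [Complex.norm_intCast]
      have e2 : ‖((ab.2 : ℤ) : ℂ)‖ = |(ab.2 : ℝ)| := by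
        rw [Complex.norm_intCast]
      calc ‖pt ab‖ ≤ ‖((ab.1 : ℤ) : ℂ) * w₁‖ + ‖((ab.2 : ℤ) : ℂ) * w₂‖ := norm_add_le _ _
        _ = |(ab.1 : ℝ)| * ‖w₁‖ + |(ab.2 : ℝ)| * ‖w₂‖ := by rw [norm_mul, norm_mul, e1, e2]
        _ ≤ T * ‖w₁‖ + T * ‖w₂‖ := by gcongr
        _ = 4 * M * T / 4 := by rw [hM]; ring
  have hMpos : 0 < M := by
    have h3 : w₁ ≠ 0 := hw.ne_zero 0
    have : 0 < ‖w₁‖ := norm_pos_iff.2 h3
    positivity
  -- contradiction for large `T`
  set E : ℝ := d * Real.log ‖F 0‖ + Real.log B - Real.log ‖φ 0‖ with hE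
  obtain ⟨T, hT⟩ := exists_nat_ge (max (1 / M) (|C₀| * d + |E| + 2))
  have hT1 : 1 / M ≤ T := (le_max_left _ _).trans hT
  have hT2 : |C₀| * d + |E| + 2 ≤ T := (le_max_right _ _).trans hT
  have hTpos : (1 : ℝ) ≤ T := by
    have : 0 ≤ |C₀| * d + |E| := by positivity
    linarith
  have hTn : 1 ≤ T := by exact_mod_cast hTpos
  have hMT : 4 / 3 ≤ 4 * M * T := by
    rw [div_le_iff₀ hMpos] at hT1
    nlinarith
  have h3 := est T hTn hMT
  have h4 : (1 / 3 : ℝ) ≤ Real.exp (-1) := by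
    rw [Real.exp_neg, one_div]
    apply inv_anti₀ (Real.exp_pos _)
    have := Real.exp_one_lt_d9
    linarith
  have h5 : Real.exp (-(C₀ * (1 + (4 * M * T) ^ 2))) ^ d * ‖φ 0‖ ≤ ‖F 0‖ ^ d * (B * Real.exp (-1) ^ (K * d * (4 * T ^ 2))) := by
    refine h3.trans ?_
    gcongr
  have h6 : Real.exp (d * -(C₀ * (1 + (4 * M * T) ^ 2)) + Real.log ‖φ 0‖) ≤
      Real.exp (d * Real.log ‖F 0‖ + (Real.log B + ((K * d * (4 * T ^ 2) : ℕ) : ℝ) * (-1))) := by
    rw [Real.exp_add, Real.exp_add, Real.exp_add, Real.exp_nat_mul, Real.exp_nat_mul, Real.exp_nat_mul, Real.exp_log hφpos,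
      Real.exp_log hF0pos, Real.exp_log hB0]
    exact h5
  rw [Real.exp_le_exp] at h6
  push_cast at h6
  have hd1 : (1 : ℝ) ≤ d := by exact_mod_cast hd
  have h7 : C₀ * (1 + (4 * M * T) ^ 2) ≤ |C₀| * (1 + (4 * M * T) ^ 2) :=
    mul_le_mul_of_nonneg_right (le_abs_self _) (by positivity)
  have h8 : (4 * |C₀| * M ^ 2 + 1) * (d * (4 * T ^ 2)) ≤ K * (d * (4 * T ^ 2)) :=
    mul_le_mul_of_nonneg_right hK (by positivity)
  have h9 : (d : ℝ) * (C₀ * (1 + (4 * M * T) ^ 2)) ≤ d * (|C₀| * (1 + (4 * M * T) ^ 2)) :=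
    mul_le_mul_of_nonneg_left h7 (by positivity)
  have h10 : E ≤ |E| := le_abs_self _
  have h11 : (d : ℝ) * (4 * T ^ 2) ≤ |C₀| * d + |E| := by
    rw [hE] at h10 ⊢
    nlinarith
  have h12 : (T : ℝ) ≤ d * (4 * T ^ 2) := by
    have : (T : ℝ) * 1 ≤ T * T := mul_le_mul_of_nonneg_left hTpos (by linarith)
    nlinarith
  linarith

end Pool.Agent.H17EF
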