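import Pool.Agent.H13.OT.Wrap
import Mathlib.Analysis.Fourier.AddCircle

/-!
# EF Ord: an entire curve with `T_f(r) = O(r²)` has bounded lifts on discs

The converse of `Pool.Agent.H13.OT.OrdTwo.orderTwo`.
-/

set_option autoImplicit false

namespace Pool.Agent.H17EF

open Metric Filter Topology
open Pool.Agent.H36.BP (OrdTwo)

/-- real parts of polynomials are dense in the continuous real functions on a circle -/
theorem exists_poly_re {u : ℂ → ℝ} {r : ℝ} (hr : 0 < r) (hu : ContinuousOn u (sphere 0 r)) {ε : ℝ} (hε : 0 < ε) :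
    ∃ p : Polynomial ℂ, ∀ z : ℂ, ‖z‖ = r → |(p.eval z).re - u z| < ε := by
  have : Fact (0 < 2 * Real.pi) := ⟨Real.two_pi_pos⟩
  -- the function on the circle
  let c : AddCircle (2 * Real.pi) → ℂ := fun θ => (r : ℂ) * (AddCircle.toCircle θ : ℂ)
  have hc : Continuous c := by
    apply continuous_const.mul
    exact continuous_subtype_val.comp AddCircle.continuous_toCircle
  have hcn : ∀ θ, c θ ∈ sphere (0 : ℂ) r := by
    intro θ
    rw [mem_sphere_zero_iff_norm]
    simp only [c, norm_mul, Complex.norm_real, Circle.norm_coe, mul_one, Real.norm_of_nonneg hr.le]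
  have hcs : ∀ z : ℂ, ‖z‖ = r → ∃ θ, c θ = z := by
    intro z hz
    refine ⟨((Complex.arg z : ℝ) : AddCircle (2 * Real.pi)), ?_⟩
    have h1 : AddCircle.toCircle ((Complex.arg z : ℝ) : AddCircle (2 * Real.pi)) = Circle.exp (Complex.arg z) := by
      rw [AddCircle.toCircle_apply_mk]
      congr 1
      field_simp
    simp only [c]
    rw [h1, Circle.coe_exp, ← hz, Complex.norm_mul_exp_arg_mul_I]
  let φ : C(AddCircle (2 * Real.pi), ℂ) := ⟨fun θ => ((u (c θ) : ℝ) : ℂ), by
    apply Complex.continuous_ofReal.comp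
    exact hu.comp_continuous hc hcn⟩
  have hφ : φ ∈ (Submodule.span ℂ (Set.range <| @fourier (2 * Real.pi))).topologicalClosure := by
    rw [span_fourier_closure_eq_top]
    trivial
  rw [← SetLike.mem_coe, Submodule.topologicalClosure_coe, Metric.mem_closure_iff] at hφ
  obtain ⟨T, hT, hTd⟩ := hφ ε hε
  -- the real part of a trigonometric polynomial
  have key : ∀ T ∈ Submodule.span ℂ (Set.range <| @fourier (2 * Real.pi)), ∀ a : ℂ, ∃ p : Polynomial ℂ,
      ∀ θ, (a * T θ).re = (p.eval (c θ)).re := by
    intro T hT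
    induction hT using Submodule.span_induction with
    | mem T hT =>
      obtain ⟨n, rfl⟩ := hT
      intro a
      have hfou : ∀ (m : ℕ) (θ : AddCircle (2 * Real.pi)), fourier (m : ℤ) θ = (c θ / r) ^ m := by
        intro m θ
        have h1 : c θ / r = (AddCircle.toCircle θ : ℂ) := by
          simp only [c]
          rw [mul_div_assoc, mul_comm, div_mul_cancel₀]
          exact_mod_cast hr.ne'
        rw [h1, fourier_apply, natCast_zsmul, AddCircle.toCircle_nsmul]
        simp
      rcases Int.eq_nat_or_neg n with ⟨m, rfl | rfl⟩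
      · refine ⟨Polynomial.C (a * ((r : ℂ)⁻¹) ^ m) * Polynomial.X ^ m, fun θ => ?_⟩
        rw [hfou]
        simp only [Polynomial.eval_mul, Polynomial.eval_C, Polynomial.eval_pow, Polynomial.eval_X]
        rw [div_eq_mul_inv, mul_pow]
        congr 1
        ring
      · refine ⟨Polynomial.C ((starRingEnd ℂ a) * ((r : ℂ)⁻¹) ^ m) * Polynomial.X ^ m, fun θ => ?_⟩
        rw [fourier_neg, hfou]
        simp only [Polynomial.eval_mul, Polynomial.eval_C, Polynomial.eval_pow, Polynomial.eval_X]
        have h1 : a * (starRingEnd ℂ) ((c θ / r) ^ m) = (starRingEnd ℂ) ((starRingEnd ℂ a) * (c θ / r) ^ m) := by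
          rw [map_mul, Complex.conj_conj]
        rw [h1, Complex.conj_re, div_eq_mul_inv, mul_pow]
        congr 1
        ring
    | zero =>
      intro a
      exact ⟨0, fun θ => by simp⟩
    | add S T _ _ hS hT =>
      intro a
      obtain ⟨p, hp⟩ := hS a
      obtain ⟨q, hq⟩ := hT a
      refine ⟨p + q, fun θ => ?_⟩
      rw [Polynomial.eval_add, Complex.add_re, ← hp, ← hq, ContinuousMap.add_apply, mul_add, Complex.add_re]
    | smul b T _ hT =>
      intro a
      obtain ⟨p, hp⟩ := hT (a * b)
      refine ⟨p, fun θ => ?_⟩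
      rw [← hp, ContinuousMap.smul_apply, smul_eq_mul, mul_assoc]
  obtain ⟨p, hp⟩ := key T hT 1
  refine ⟨p, fun z hz => ?_⟩
  obtain ⟨θ, rfl⟩ := hcs z hz
  rw [← hp θ, one_mul]
  have h1 : ‖(φ - T) θ‖ ≤ ‖φ - T‖ := (φ - T).norm_coe_le_norm θ
  rw [← dist_eq_norm] at h1
  have h2 : ‖(φ - T) θ‖ < ε := h1.trans_lt hTd
  have h3 : ((φ - T) θ).re = u (c θ) - (T θ).re := by
    rw [ContinuousMap.sub_apply, Complex.sub_re]
    simp only [φ, ContinuousMap.coe_mk, Complex.ofReal_re]
  have h4 := Complex.abs_re_le_norm ((φ - T) θ)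
  rw [h3] at h4
  rw [abs_sub_comm]
  exact h4.trans_lt h2

/-- the mean value of the real part of a polynomial -/
theorem average_re (p : Polynomial ℂ) (r : ℝ) : Real.circleAverage (fun z => (p.eval z).re) 0 r = (p.eval 0).re := by
  have h1 : InnerProductSpace.HarmonicOnNhd (fun z => (p.eval z).re) (closedBall (0 : ℂ) |r|) := by
    intro z _
    have := (AnalyticAt.harmonicAt_re (f := fun z : ℂ => p.eval z) (x := z) (p.differentiable.analyticAt z))
    exact this
  exact h1.circleAverage_eq

/-- **Bounded lifts from the characteristic.** -/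
theorem ordTwo_of_average {V : Type} [NormedAddCommGroup V] [NormedSpace ℂ V] {F : ℂ → V} (hF : Differentiable ℂ F)
    (h0 : ∀ z, F z ≠ 0) {A : ℝ} (hA : ∀ r : ℝ, 0 < r → Real.circleAverage (fun z => Real.log ‖F z‖) 0 r ≤ A * (1 + r ^ 2)) :
    OrdTwo F := by
  refine ⟨|A| + 2 + |Real.log ‖F 0‖|, fun r hr => ?_⟩
  have hlogc : Continuous fun z => Real.log ‖F z‖ := by
    refine Continuous.log hF.continuous.norm fun z => ?_
    exact norm_ne_zero_iff.2 (h0 z)
  obtain ⟨p, hp⟩ := exists_poly_re hr (u := fun z => Real.log ‖F z‖ + 1) (hlogc.add continuous_const).continuousOn one_pos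
  have hlt : ∀ z : ℂ, ‖z‖ = r → Real.log ‖F z‖ ≤ (p.eval z).re ∧ (p.eval z).re ≤ Real.log ‖F z‖ + 2 := by
    intro z hz
    have := abs_lt.1 (hp z hz)
    constructor <;> linarith [this.1, this.2]
  refine ⟨fun z => Complex.exp (-p.eval z) • F z, ?_, ?_, ?_, ?_⟩
  · have h1 : Differentiable ℂ fun z => Complex.exp (-p.eval z) := by
      have := p.differentiable
      fun_prop
    exact (h1.smul hF).differentiableOn
  · intro z hz
    have hd : DiffContOnCl ℂ (fun z => Complex.exp (-p.eval z) • F z) (ball 0 r) := by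
      have h1 : Differentiable ℂ fun z => Complex.exp (-p.eval z) := by
        have := p.differentiable
        fun_prop
      exact (h1.smul hF).diffContOnCl
    refine Complex.norm_le_of_forall_mem_frontier_norm_le isBounded_ball hd ?_ (subset_closure hz)
    intro ζ hζ
    rw [frontier_ball _ hr.ne', mem_sphere_zero_iff_norm] at hζ
    rw [norm_smul, Complex.norm_exp, Complex.neg_re]
    have h2 := (hlt ζ hζ).1
    have h3 : ‖F ζ‖ ≤ Real.exp (p.eval ζ).re := by
      rw [← Real.exp_log (norm_pos_iff.2 (h0 ζ))]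
      exact Real.exp_le_exp.2 h2
    calc Real.exp (-(p.eval ζ).re) * ‖F ζ‖ ≤ Real.exp (-(p.eval ζ).re) * Real.exp (p.eval ζ).re :=
          mul_le_mul_of_nonneg_left h3 (Real.exp_pos _).le
      _ = 1 := by rw [← Real.exp_add]; simp
  · rw [norm_smul, Complex.norm_exp, Complex.neg_re]
    have h2 : (p.eval 0).re ≤ A * (1 + r ^ 2) + 2 := by
      rw [← average_re p r]
      have h3 : Real.circleAverage (fun z => (p.eval z).re) 0 r ≤ Real.circleAverage (fun z => Real.log ‖F z‖ + 2) 0 r := by
        apply Real.circleAverage_mono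
        · have := p.differentiable.continuous
          exact (Complex.continuous_re.comp this).continuousOn.circleIntegrable'
        · exact (hlogc.add continuous_const).continuousOn.circleIntegrable'
        · intro z hz
          rw [mem_sphere_zero_iff_norm, abs_of_pos hr] at hz
          exact (hlt z hz).2
      have h4 : Real.circleAverage (fun z => Real.log ‖F z‖ + 2) 0 r = Real.circleAverage (fun z => Real.log ‖F z‖) 0 r + 2 := by
        rw [Real.circleAverage_fun_add (hlogc.continuousOn.circleIntegrable') (continuous_const.continuousOn.circleIntegrable'),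
          Real.circleAverage_const]
      rw [h4] at h3
      linarith [hA r hr]
    have h5 : ‖F 0‖ = Real.exp (Real.log ‖F 0‖) := (Real.exp_log (norm_pos_iff.2 (h0 0))).symm
    rw [h5, ← Real.exp_add, Real.exp_le_exp, Real.log_exp]
    have h6 := neg_abs_le (Real.log ‖F 0‖)
    have h7 : A * (1 + r ^ 2) ≤ |A| * (1 + r ^ 2) := mul_le_mul_of_nonneg_right (le_abs_self A) (by positivity)
    have h8 : |Real.log ‖F 0‖| * 1 ≤ |Real.log ‖F 0‖| * (1 + r ^ 2) :=
      mul_le_mul_of_nonneg_left (by nlinarith [sq_nonneg r]) (abs_nonneg _)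
    nlinarith [sq_nonneg r]
  · intro z _
    refine Or.inr ⟨Complex.exp (p.eval z), Complex.exp_ne_zero _, ?_⟩
    rw [smul_smul, ← Complex.exp_add]
    simp

end Pool.Agent.H17EF
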