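import Pool.Agent.H17EF.Ord
import Pool.Agent.H36.BP.MaxP
import Pool.Agent.H36.BP.SubB
import Pool.Agent.H36.BP.SubC

/-!
# EF Up: an entire curve with bounded derivative has order at most two
-/

set_option autoImplicit false

namespace Pool.Agent.H17EF

open Pool.Agent.H36.BP Metric Filter Topology

variable {N : ℕ}

/-- an entire curve with bounded derivative has `T_f(r) = O(r²)` -/
theorem ordTwo_of_fs {F : ℂ → EN N} (hF : Differentiable ℂ F) (h0 : ∀ z, F z ≠ 0) {L : ℝ}
    (hL : ∀ z, fs (F z) (deriv F z) ≤ L) : OrdTwo F := by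
  obtain ⟨a, ha⟩ : ∃ a : ℝ, a = L ^ 2 / 2 + 1 := ⟨_, rfl⟩
  have ha0 : 0 < a := by rw [ha]; positivity
  refine ⟨a + 2 + |Real.log ‖F 0‖|, fun r hr => ?_⟩
  have hlogc : Continuous fun z => Real.log ‖F z‖ := by
    refine Continuous.log hF.continuous.norm fun z => ?_
    exact norm_ne_zero_iff.2 (h0 z)
  obtain ⟨p, hp⟩ := exists_poly_re hr (u := fun z => Real.log ‖F z‖ + 1) (hlogc.add continuous_const).continuousOn one_pos
  have hlt : ∀ z : ℂ, ‖z‖ = r → Real.log ‖F z‖ ≤ (p.eval z).re ∧ (p.eval z).re ≤ Real.log ‖F z‖ + 2 := by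
    intro z hz
    have := abs_lt.1 (hp z hz)
    constructor <;> linarith [this.1, this.2]
  have hpd : Differentiable ℂ fun z : ℂ => p.eval z := p.differentiable
  -- the upper bound at the centre
  have hval : (p.eval 0).re ≤ Real.log ‖F 0‖ + 2 + a * r ^ 2 := by
    set u : ℂ → ℝ := fun z => ‖F z‖ ^ (-1 : ℝ) * ‖Complex.exp (p.eval z)‖ * Real.exp (a * ‖z‖ ^ 2) with hu
    have hmax := max_principle (S := closedBall (0 : ℂ) r) (U := ball (0 : ℂ) r) (isCompact_closedBall _ _) isOpen_ball ball_subset_closedBall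
      (u := u) ?_ ?_ (A := Real.exp (2 + a * r ^ 2)) (Real.exp_pos _).le ?_ 0 (mem_closedBall_self hr.le)
    · rw [hu] at hmax
      simp only [norm_zero] at hmax
      rw [Real.rpow_neg_one, Complex.norm_exp, ← Real.exp_log (norm_pos_iff.2 (h0 0)), ← Real.exp_neg, ← Real.exp_add, ← Real.exp_add,
        Real.exp_le_exp] at hmax
      nlinarith
    · apply ContinuousOn.upperSemicontinuousOn
      apply Continuous.continuousOn
      have h1 : Continuous fun z => ‖F z‖ ^ (-1 : ℝ) :=
        hF.continuous.norm.rpow_const fun z => Or.inl (norm_ne_zero_iff.2 (h0 z))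
      have h2 : Continuous fun z : ℂ => ‖Complex.exp (p.eval z)‖ := by
        have := hpd.continuous
        fun_prop
      have h3 : Continuous fun z : ℂ => Real.exp (a * ‖z‖ ^ 2) := by fun_prop
      exact (h1.mul h2).mul h3
    · intro z _ _
      have s1 := Sub.norm_rpow (hF.analyticAt z) (h0 z) (-1)
      have s2 := Sub.of_holo (h := fun z => Complex.exp (p.eval z)) (z₀ := z) ((hpd.analyticAt z).cexp) (Complex.exp_ne_zero _)
      have s3 := Sub.exp_sq (t := fun z => z) (z₀ := z) analyticAt_id a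
      refine ⟨_, ?_, (s1.mul s2).mul s3⟩
      have h10 : deriv (fun z : ℂ => z) z = 1 := deriv_id z
      rw [h10, norm_one]
      have h11 := hL z
      have h12 : fs (F z) (deriv F z) ^ 2 ≤ L ^ 2 := pow_le_pow_left₀ (fs_nonneg _ _) h11 2
      rw [ha]
      nlinarith
    · intro z hz
      have hzn : ‖z‖ = r := by
        have h13 := hz.1
        have h14 := hz.2
        simp only [mem_closedBall, mem_ball, dist_zero_right, not_lt] at h13 h14
        exact le_antisymm h13 h14
      have h1 := (hlt z hzn).2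
      rw [hu]
      simp only
      rw [Real.rpow_neg_one, Complex.norm_exp, hzn]
      have h2 : ‖F z‖⁻¹ = Real.exp (-Real.log ‖F z‖) := by
        rw [Real.exp_neg, Real.exp_log (norm_pos_iff.2 (h0 z))]
      rw [h2, ← Real.exp_add, ← Real.exp_add]
      apply Real.exp_le_exp.2
      linarith
  refine ⟨fun z => Complex.exp (-p.eval z) • F z, ?_, ?_, ?_, ?_⟩
  · have h1 : Differentiable ℂ fun z => Complex.exp (-p.eval z) := by
      fun_prop
    exact (h1.smul hF).differentiableOn
  · intro z hz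
    have hd : DiffContOnCl ℂ (fun z => Complex.exp (-p.eval z) • F z) (ball 0 r) := by
      have h1 : Differentiable ℂ fun z => Complex.exp (-p.eval z) := by
        fun_prop
      exact (h1.smul hF).diffContOnCl
    refine Complex.norm_le_of_forall_mem_frontier_norm_le isBounded_ball hd ?_ (subset_closure hz)
    intro ζ hζ
    rw [frontier_ball _ hr.ne', mem_sphere_zero_iff_norm] at hζ
    rw [norm_smul, Complex.norm_exp, Complex.neg_re]
    have h2 := (hlt ζ hζ).1
    have h3 : ‖F ζ‖ ≤ Real.exp (p.eval ζ).re := by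
      rw [← Real.exp_log (norm_pos_iff.2 (h0 ζ))]
      exact Real.exp_le_exp.2 h2
    calc Real.exp (-(p.eval ζ).re) * ‖F ζ‖ ≤ Real.exp (-(p.eval ζ).re) * Real.exp (p.eval ζ).re :=
          mul_le_mul_of_nonneg_left h3 (Real.exp_pos _).le
      _ = 1 := by rw [← Real.exp_add]; simp
  · rw [norm_smul, Complex.norm_exp, Complex.neg_re]
    have h5 : ‖F 0‖ = Real.exp (Real.log ‖F 0‖) := (Real.exp_log (norm_pos_iff.2 (h0 0))).symm
    rw [h5, ← Real.exp_add, Real.exp_le_exp, Real.log_exp]
    have h8 : 0 ≤ |Real.log ‖F 0‖| * (1 + r ^ 2) := by positivity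
    nlinarith [sq_nonneg r]
  · intro z _
    refine Or.inr ⟨Complex.exp (p.eval z), Complex.exp_ne_zero _, ?_⟩
    rw [smul_smul, ← Complex.exp_add]
    simp

end Pool.Agent.H17EF
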