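import Pool.Agent.H17EF.Bridge
import Pool.Agent.H17EF.Alg
import Pool.Agent.H17EF.Up
import Pool.Agent.H62.EF.Aff
import Pool.Agent.H62.SA.SameF
import Pool.Agent.H13.CV.Strong

/-!
# EF MainE: surfaces of general type with a map to an elliptic curve
-/

set_option autoImplicit false

open Topology Filter MvPolynomial Metric

noncomputable section

namespace Pool.Agent.H17EF

open Pool.Agent.H17 (PN VanishesAt HolomorphicInto ZariskiClosedIn)
open Pool.Agent.H62.FC (Homog)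
open Pool.Agent.H62.EF
open Pool.Agent.H17BP (Surface IsChart IsForm NoZeros)
open Pool.Agent.H17LG.Variety (FunField IsLogGeneralType)
open Pool.Agent.H13.SM (conTan cone)
open Pool.Agent.H36.BP (EN fs wd formT isCone_transport germ_transport tan_transport OrdTwo)
open Pool.Agent.H14.PP (IsCone Chart Form)
open Pool.Agent.H13.OT (OrderTwo)

variable {N : ℕ}

section core

variable {P : Ideal (MvPolynomial (Fin (N + 1)) ℂ)} [P.IsPrime] {z : Fin 2 → FunField P}

/-- general type -/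
def GT (P : Ideal (MvPolynomial (Fin (N + 1)) ℂ)) [P.IsPrime] (k : ℕ) : Prop :=
  IsLogGeneralType (K := FunField P) (k := k) (fun _ => False)

theorem core_finite (hP : Homog P) (hz : IsTranscendenceBasis ℂ z)
    (hsm : ∀ y : Fin (N + 1) → ℂ, y ≠ 0 → (∀ Q ∈ P, eval y Q = 0) → Module.finrank ℂ (conTan P y) ≤ 3) (hgt : GT P 2)
    {Λ : AddSubgroup ℂ} (hΛ : Lat Λ) {u : PN N → ℂ ⧸ Λ} (hu : IsHolomorphicMap (projVar P) Λ u) {Z : Set (PN N)}
    (hfib : FibreCondition (projVar P) Λ u Z) : (SS (coneE P) Λ (uE Λ u)).Finite := by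
  have hS : Surface (cone P) := Pool.Agent.H13.SM.surface_cone hP hz fun y hy => hsm y hy.1 hy.2
  have hLGT : Pool.Agent.H62.FC.LogGeneralType P ∅ 2 := by
    have h1 : (Pool.Agent.H62.FC.OnBoundary P ∅ (w := 2)) = fun _ => False := by
      funext E
      apply propext
      constructor
      · rintro ⟨j, -, -, i, hi, -⟩
        exact absurd hi (Finset.notMem_empty i)
      · exact False.elim
    unfold Pool.Agent.H62.FC.LogGeneralType
    rw [h1]
    exact hgt
  obtain ⟨M, Om, D₀, Q₀, hM, hQ₀, hQ₀P, hOm, hnz⟩ := Pool.Agent.H68.KR.exists_form_of_smooth hP hz (fun y hy hyP => hsm y hy hyP) hLGT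
  have hOm' : IsForm (cone P) M 1 Om := hOm
  refine SS_finite (isCone_transport (LE N) hS) (charts hS) (torusMap hP hu) hΛ (fibHyp hP hfib) hM (formT (LE N) hOm')
    (q := fun y => eval ((LE N).symm y) Q₀) (d := D₀) ?_ ?_ ?_ ?_
  · intro y
    have h1 : AnalyticAt ℂ (fun x : Fin (N + 1) → ℂ => eval x Q₀) ((LE N).symm y) := by
      have := AnalyticAt.aeval_mvPolynomial (𝕜 := ℂ) (A := ℂ) (f := fun (x : Fin (N + 1) → ℂ) i => x i) (z := (LE N).symm y)
        (fun i => (ContinuousLinearMap.proj (R := ℂ) (φ := fun _ : Fin (N + 1) => ℂ) i).analyticAt _) Q₀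
      simpa [MvPolynomial.aeval_eq_eval] using this
    exact AnalyticAt.comp (g := fun x : Fin (N + 1) → ℂ => eval x Q₀) (f := fun y : EN N => (LE N).symm y) h1
      (((LE N).symm : EN N →L[ℂ] (Fin (N + 1) → ℂ)).analyticAt y)
  · intro c x
    rw [map_smul, eval_smul_form hQ₀]
  · intro x hx hev
    obtain ⟨σ, τ, hc, h0⟩ := hS.chart ((LE N).symm x) hx
    have h1 := Pool.Agent.H13.SM.frequently_ne_zero hP hz (fun y hy => hsm y hy.1 hy.2) hc hQ₀ hQ₀P
    apply h1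
    have h2 : Tendsto (fun p => (LE N) (σ p)) (𝓝 (0 : ℂ × ℂ)) (𝓝 x) := by
      have h3 : ContinuousAt (fun p => (LE N) (σ p)) 0 := (LE N).continuous.continuousAt.comp hc.σ_an.continuousAt
      have h4 := h3.tendsto
      rw [h0, ContinuousLinearEquiv.apply_symm_apply] at h4
      exact h4
    filter_upwards [h2.eventually hev, hc.σ_mem] with p hp hp'
    have h5 : (LE N) (σ p) ∈ coneE P := by
      show (LE N).symm ((LE N) (σ p)) ∈ cone P
      rw [ContinuousLinearEquiv.symm_apply_apply]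
      exact hp'
    have h6 := hp h5
    rw [ContinuousLinearEquiv.symm_apply_apply] at h6
    simpa using h6
  · intro x hx hxT v w hv hw hind
    refine hnz ((LE N).symm x) hx ?_ _ (tan_transport (LE N) hv) _ (tan_transport (LE N) hw) ?_
    · rintro ⟨h1, h2⟩
      exact hxT ⟨hx, h2⟩
    · have h3 := hind.map' ((LE N).symm : EN N →ₗ[ℂ] (Fin (N + 1) → ℂ)) (LinearMap.ker_eq_bot.2 (LE N).symm.injective)
      have h4 : (((LE N).symm : EN N →ₗ[ℂ] (Fin (N + 1) → ℂ)) ∘ ![x, v, w] : Fin 3 → Fin (N + 1) → ℂ) =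
          ![(LE N).symm x, (LE N).symm v, (LE N).symm w] := by
        funext i
        fin_cases i <;> rfl
      rw [h4] at h3
      exact h3

/-- the projection matrix of a point -/
def prP (x : PN N) : MN N := pr ((LE N) x.rep)

theorem prP_mk {x : Fin (N + 1) → ℂ} (hx : x ≠ 0) : prP (Projectivization.mk ℂ x hx) = pr ((LE N) x) := by
  obtain ⟨a, ha, h⟩ := Pool.Agent.H36.BP.rep_mk hx
  unfold prP
  rw [h, map_smul, pr_smul _ ha]

theorem LE_ne_zero {x : Fin (N + 1) → ℂ} (hx : x ≠ 0) : (LE N) x ≠ 0 := fun h => hx ((LE N).map_eq_zero_iff.1 h)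

theorem prP_injective : Function.Injective (prP (N := N)) := by
  intro x y h
  unfold prP at h
  obtain ⟨c, hc, h'⟩ := (pr_eq_iff (LE_ne_zero x.rep_nonzero) (LE_ne_zero y.rep_nonzero)).1 h
  rw [← map_smul] at h'
  have h1 := (LE N).injective h'
  rw [← x.mk_rep, ← y.mk_rep, Projectivization.mk_eq_mk_iff']
  exact ⟨c, h1.symm⟩

/-- the lift of a section -/
theorem exists_sec (hP : Homog P) {Λ : AddSubgroup ℂ} {u : PN N → ℂ ⧸ Λ} {f : ℂ → PN N} (hf : f ∈ sections (projVar P) Λ u) :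
    ∃ F ∈ Sec (coneE P) Λ (uE Λ u), ∀ z, ∃ h : (LE N).symm (F z) ≠ 0, f z = Projectivization.mk ℂ ((LE N).symm (F z)) h := by
  obtain ⟨hf1, hf2, hf3⟩ := hf
  obtain ⟨F, hF, hFf⟩ := exists_lift hf1
  refine ⟨F, ⟨hF, fun z => ?_, fun z => ?_⟩, hFf⟩
  · obtain ⟨h, h'⟩ := hFf z
    exact (mem_coneE hP).2 ⟨h, h' ▸ hf2 z⟩
  · obtain ⟨h, h'⟩ := hFf z
    rw [sub_mem_iff, uE_eq Λ u h, ← h']
    exact hf3 z

theorem mk_symm {F : EN N} (h : (LE N).symm F ≠ 0) : prP (Projectivization.mk ℂ ((LE N).symm F) h) = pr F := by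
  rw [prP_mk, ContinuousLinearEquiv.apply_symm_apply]

theorem sections_finite (hP : Homog P) (hz : IsTranscendenceBasis ℂ z)
    (hsm : ∀ y : Fin (N + 1) → ℂ, y ≠ 0 → (∀ Q ∈ P, eval y Q = 0) → Module.finrank ℂ (conTan P y) ≤ 3) (hgt : GT P 2)
    {Λ : AddSubgroup ℂ} (hΛ : Lat Λ) {u : PN N → ℂ ⧸ Λ} (hu : IsHolomorphicMap (projVar P) Λ u) {Z : Set (PN N)}
    (hfib : FibreCondition (projVar P) Λ u Z) : (sections (projVar P) Λ u).Finite := by
  have hfin := core_finite hP hz hsm hgt hΛ hu hfib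
  refine Set.Finite.of_finite_image (f := fun (f : ℂ → PN N) z => prP (f z)) (hfin.subset ?_) ?_
  · rintro _ ⟨f, hf, rfl⟩
    obtain ⟨F, hF, hFf⟩ := exists_sec hP hf
    refine ⟨F, hF, ?_⟩
    funext z
    obtain ⟨h, h'⟩ := hFf z
    show prP (f z) = _
    rw [h', mk_symm h]
  · intro f _ g _ h
    funext z
    exact prP_injective (congrFun h z)

/-- the sections are doubly periodic -/
theorem sections_periodic (hP : Homog P) {Λ : AddSubgroup ℂ} {u : PN N → ℂ ⧸ Λ} (hfin : (SS (coneE P) Λ (uE Λ u)).Finite) :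
    ∃ m : ℕ, 1 ≤ m ∧ ∀ f ∈ sections (projVar P) Λ u, ∀ l ∈ Λ, ∀ z, f (z + (m : ℂ) * l) = f z := by
  obtain ⟨m, hm, h⟩ := periodic hfin
  refine ⟨m, hm, fun f hf l hl z => ?_⟩
  obtain ⟨F, hF, hFf⟩ := exists_sec hP hf
  obtain ⟨h1, h1'⟩ := hFf (z + (m : ℂ) * l)
  obtain ⟨h2, h2'⟩ := hFf z
  apply prP_injective
  rw [h1', h2', mk_symm h1, mk_symm h2]
  exact h F hF l hl z

/-- orders for the two norms -/
theorem ordTwo_symm {F : ℂ → EN N} (h : OrdTwo F) : OrdTwo fun z => (LE N).symm (F z) := by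
  set M : ℝ := max ‖((LE N : (Fin (N + 1) → ℂ) →L[ℂ] EN N))‖ 1 with hM
  have hM0 : 0 < M := lt_of_lt_of_le one_pos (le_max_right _ _)
  refine OrdTwo.map ((LE N).symm : EN N →L[ℂ] (Fin (N + 1) → ℂ)) h (c := M⁻¹) (inv_pos.mpr hM0) fun x => ?_
  rw [inv_mul_le_iff₀ hM0]
  have h1 := (LE N : (Fin (N + 1) → ℂ) →L[ℂ] EN N).le_opNorm ((LE N).symm x)
  have h2 : (LE N : (Fin (N + 1) → ℂ) →L[ℂ] EN N) ((LE N).symm x) = x := (LE N).apply_symm_apply x
  rw [h2] at h1
  exact h1.trans (mul_le_mul_of_nonneg_right (le_max_left _ _) (norm_nonneg _))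

theorem sections_orderTwo (hP : Homog P) (hz : IsTranscendenceBasis ℂ z)
    (hsm : ∀ y : Fin (N + 1) → ℂ, y ≠ 0 → (∀ Q ∈ P, eval y Q = 0) → Module.finrank ℂ (conTan P y) ≤ 3)
    {Λ : AddSubgroup ℂ} (hΛ : Lat Λ) {u : PN N → ℂ ⧸ Λ} (hu : IsHolomorphicMap (projVar P) Λ u) {Z : Set (PN N)}
    (hfib : FibreCondition (projVar P) Λ u Z) {f : ℂ → PN N} (hf : f ∈ sections (projVar P) Λ u) :
    OrderTwo f ∧ ∃ F : ℂ → Fin (N + 1) → ℂ, Differentiable ℂ F ∧ OrdTwo F ∧ ∀ z, ∃ h : F z ≠ 0, f z = Projectivization.mk ℂ (F z) h := by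
  have hS : Surface (cone P) := Pool.Agent.H13.SM.surface_cone hP hz fun y hy => hsm y hy.1 hy.2
  obtain ⟨F, hF, hFf⟩ := exists_sec hP hf
  obtain ⟨L, -, hL⟩ := uniform_bound (isCone_transport (LE N) hS) (torusMap hP hu) hΛ (fibHyp hP hfib)
  have h0 : ∀ z, F z ≠ 0 := by
    intro z h
    obtain ⟨h1, -⟩ := hFf z
    rw [h, map_zero] at h1
    exact h1 rfl
  have h1 := ordTwo_symm (ordTwo_of_fs hF.1 h0 (hL F hF))
  have h2 : Differentiable ℂ fun z => (LE N).symm (F z) := (LE N).symm.differentiable.comp hF.1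
  have h3 : ∀ z, (LE N).symm (F z) ≠ 0 := fun z => (hFf z).1
  refine ⟨?_, fun z => (LE N).symm (F z), h2, h1, hFf⟩
  have h4 : ∀ z, Pool.Agent.H17BP.HolP (fun z => (LE N).symm (F z)) z := by
    intro z
    exact ⟨fun z => (LE N).symm (F z), h2.analyticAt z, h3 z, Eventually.of_forall fun w => ⟨1, one_ne_zero, by simp⟩⟩
  have h5 := Pool.Agent.H13.OT.OrdTwo.orderTwo h3 h4 h1
  have h6 : f = fun z => Projectivization.mk ℂ ((LE N).symm (F z)) (h3 z) := by
    funext z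
    exact (hFf z).2
  rw [h6]
  exact h5

/-- the sections are algebraically degenerate -/
theorem sections_form (hP : Homog P) (hz : IsTranscendenceBasis ℂ z)
    (hsm : ∀ y : Fin (N + 1) → ℂ, y ≠ 0 → (∀ Q ∈ P, eval y Q = 0) → Module.finrank ℂ (conTan P y) ≤ 3) (hgt : GT P 2)
    {w : Fin 2 → ℂ} (hw : LinearIndependent ℝ w) {u : PN N → ℂ ⧸ AddSubgroup.closure (Set.range w)}
    (hu : IsHolomorphicMap (projVar P) (AddSubgroup.closure (Set.range w)) u) {Z : Set (PN N)}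
    (hfib : FibreCondition (projVar P) (AddSubgroup.closure (Set.range w)) u Z) {f : ℂ → PN N}
    (hf : f ∈ sections (projVar P) (AddSubgroup.closure (Set.range w)) u) :
    ∃ (Q : MvPolynomial (Fin (N + 1)) ℂ) (d : ℕ), Q.IsHomogeneous d ∧ Q ∉ P ∧ ∀ z, VanishesAt Q (f z) := by
  have hΛ := lat_of_basis hw
  obtain ⟨-, F, hF, hFo, hFf⟩ := sections_orderTwo hP hz hsm hΛ hu hfib hf
  obtain ⟨m, hm, hper⟩ := sections_periodic hP (core_finite hP hz hsm hgt hΛ hu hfib)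
  have hmem : ∀ i, w i ∈ AddSubgroup.closure (Set.range w) := fun i => AddSubgroup.subset_closure ⟨i, rfl⟩
  have hperiod : ∀ i, IsPeriod F ((m : ℂ) * w i) := by
    intro i z
    have h1 := hper f hf (w i) (hmem i) z
    obtain ⟨h2, h2'⟩ := hFf (z + (m : ℂ) * w i)
    obtain ⟨h3, h3'⟩ := hFf z
    rw [h2', h3', Projectivization.mk_eq_mk_iff'] at h1
    obtain ⟨a, ha⟩ := h1
    refine ⟨a, ?_, ha.symm⟩
    rintro rfl
    rw [zero_smul] at ha
    exact h2 ha.symm
  have hm0 : (m : ℂ) ≠ 0 := by exact_mod_cast (by omega : m ≠ 0)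
  have hm0r : (m : ℝ) ≠ 0 := by exact_mod_cast (by omega : m ≠ 0)
  have hind : LinearIndependent ℝ ![(m : ℂ) * w 0, (m : ℂ) * w 1] := by
    rw [LinearIndependent.pair_iff]
    intro a b hab
    have hww : LinearIndependent ℝ ![w 0, w 1] := by
      have h2 : ![w 0, w 1] = w := by
        funext i
        fin_cases i <;> rfl
      rw [h2]
      exact hw
    have h1 := LinearIndependent.pair_iff.1 hww (a * m) (b * m) (by
        simp only [Complex.real_smul] at hab ⊢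
        push_cast
        linear_combination hab)
    exact ⟨(mul_eq_zero.1 h1.1).resolve_right hm0r, (mul_eq_zero.1 h1.2).resolve_right hm0r⟩
  obtain ⟨Q, d, hQ, hQP, hQF⟩ := exists_form_of_periodic hz hF (fun z => (hFf z).1) hFo (fun z Q hQ => by
    have h1 := hf.2.1 z
    obtain ⟨h2, h2'⟩ := hFf z
    rw [h2', mk_mem_projVar hP h2] at h1
    exact h1.2 Q hQ) hind (hperiod 0) (hperiod 1)
  refine ⟨Q, d, hQ, hQP, fun z => ?_⟩
  obtain ⟨h2, h2'⟩ := hFf z
  rw [h2']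
  obtain ⟨a, ha, hrep⟩ := Pool.Agent.H36.BP.rep_mk h2
  unfold VanishesAt
  rw [hrep, eval_smul_form hQ, hQF z, mul_zero]

/-- entire curves of order two are sections up to an affine change of the variable, or vertical -/
theorem exists_affine (hP : Homog P) (hz : IsTranscendenceBasis ℂ z)
    (hsm : ∀ y : Fin (N + 1) → ℂ, y ≠ 0 → (∀ Q ∈ P, eval y Q = 0) → Module.finrank ℂ (conTan P y) ≤ 3)
    {Λ : AddSubgroup ℂ} (hΛ : Lat Λ) {u : PN N → ℂ ⧸ Λ} (hu : IsHolomorphicMap (projVar P) Λ u) {g : ℂ → PN N}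
    (hg : HolomorphicInto g Set.univ) (hgo : OrderTwo g) (hgX : ∀ z, g z ∈ projVar P) :
    (∀ z w, u (g z) = u (g w)) ∨ ∃ f ∈ sections (projVar P) Λ u, ∃ a b : ℂ, a ≠ 0 ∧ ∀ z, g z = f (a * z + b) := by
  have hS : Surface (cone P) := Pool.Agent.H13.SM.surface_cone hP hz fun y hy => hsm y hy.1 hy.2
  obtain ⟨G, A, hG, hGg, hA⟩ := hgo
  -- the lift in the Euclidean space
  have h0 : ∀ z, G z ≠ 0 := fun z => (hGg z).1
  have hE : Differentiable ℂ fun z => (LE N) (G z) := (LE N).differentiable.comp hG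
  have hE0 : ∀ z, (LE N) (G z) ≠ 0 := fun z => LE_ne_zero (h0 z)
  obtain ⟨C, hC0, hC⟩ : ∃ C : ℝ, 0 < C ∧ ∀ x, ‖(LE N) x‖ ≤ C * ‖x‖ := by
    refine ⟨‖((LE N : (Fin (N + 1) → ℂ) →L[ℂ] EN N))‖ + 1, by positivity, fun x => ?_⟩
    refine ((LE N : (Fin (N + 1) → ℂ) →L[ℂ] EN N).le_opNorm x).trans ?_
    exact mul_le_mul_of_nonneg_right (by linarith) (norm_nonneg x)
  have hA' : ∀ r : ℝ, 0 < r → Real.circleAverage (fun z => Real.log ‖(LE N) (G z)‖) 0 r ≤ (|A| + |Real.log C|) * (1 + r ^ 2) := by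
    intro r hr
    have hc1 : Continuous fun z => Real.log ‖(LE N) (G z)‖ := Continuous.log hE.continuous.norm fun z => norm_ne_zero_iff.2 (hE0 z)
    have hc2 : Continuous fun z => Real.log ‖G z‖ := Continuous.log hG.continuous.norm fun z => norm_ne_zero_iff.2 (h0 z)
    have h1 : Real.circleAverage (fun z => Real.log ‖(LE N) (G z)‖) 0 r ≤ Real.circleAverage (fun z => Real.log C + Real.log ‖G z‖) 0 r := by
      apply Real.circleAverage_mono hc1.continuousOn.circleIntegrable' (continuous_const.add hc2).continuousOn.circleIntegrable'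
      intro z _
      show Real.log ‖(LE N) (G z)‖ ≤ Real.log C + Real.log ‖G z‖
      rw [← Real.log_mul hC0.ne' (norm_ne_zero_iff.2 (h0 z))]
      exact Real.log_le_log (norm_pos_iff.2 (hE0 z)) (hC _)
    rw [Real.circleAverage_fun_add (continuous_const.continuousOn.circleIntegrable') (hc2.continuousOn.circleIntegrable'),
      Real.circleAverage_const] at h1
    have h2 := hA r hr
    have h3 : A * (1 + r ^ 2) ≤ |A| * (1 + r ^ 2) := mul_le_mul_of_nonneg_right (le_abs_self A) (by positivity)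
    have h4 : |Real.log C| * 1 ≤ |Real.log C| * (1 + r ^ 2) := mul_le_mul_of_nonneg_left (by nlinarith [sq_nonneg r]) (abs_nonneg _)
    have h5 := le_abs_self (Real.log C)
    nlinarith
  have hEX : ∀ z, (LE N) (G z) ∈ coneE P := by
    intro z
    show (LE N).symm ((LE N) (G z)) ∈ cone P
    rw [ContinuousLinearEquiv.symm_apply_apply]
    obtain ⟨h1, h1'⟩ := hGg z
    exact (mk_mem_projVar hP h1).1 (h1' ▸ hgX z)
  obtain ⟨a, b, hab⟩ := affine_lift (isCone_transport (LE N) hS) (torusMap hP hu) hΛ hE hEX hA'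
  have hug : ∀ z, u (g z) = ((a * z + b : ℂ) : ℂ ⧸ Λ) := by
    intro z
    obtain ⟨h1, h1'⟩ := hGg z
    have h2 := sub_mem_iff.1 (hab z)
    have h3 : (LE N).symm ((LE N) (G z)) ≠ 0 := by
      rw [ContinuousLinearEquiv.symm_apply_apply]
      exact h1
    rw [uE_eq Λ u h3] at h2
    rw [← h2, h1']
    congr 1
  by_cases ha : a = 0
  · left
    intro z w
    rw [hug z, hug w, ha, zero_mul, zero_mul]
  · right
    refine ⟨fun z => g (a⁻¹ * (z - b)), ⟨?_, fun z => hgX _, fun z => ?_⟩, a, b, ha, fun z => ?_⟩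
    · intro z₀ _
      obtain ⟨φ, hφ, hφ'⟩ := hg (a⁻¹ * (z₀ - b)) (Set.mem_univ _)
      have h1 : AnalyticAt ℂ (fun z : ℂ => a⁻¹ * (z - b)) z₀ := by fun_prop
      refine ⟨fun z => φ (a⁻¹ * (z - b)), AnalyticAt.comp (g := φ) (f := fun z : ℂ => a⁻¹ * (z - b)) hφ h1, ?_⟩
      exact h1.continuousAt.tendsto.eventually hφ'
    · have h1 : a * (a⁻¹ * (z - b)) + b = z := by
        rw [mul_inv_cancel_left₀ ha, sub_add_cancel]
      show u (g (a⁻¹ * (z - b))) = _
      rw [hug, h1]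
    · show g z = g (a⁻¹ * (a * z + b - b))
      rw [add_sub_cancel_right, inv_mul_cancel_left₀ ha]

end core

end Pool.Agent.H17EF
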