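import Pool.Agent.H36.BP.MaxP
import Pool.Agent.H36.BP.SubB
import Pool.Agent.H36.BP.SubC

/-!
# EF DLin: a holomorphic function whose derivative is bounded by the length of an entire curve of order two is affine

With `u = ‖G‖ exp(-a|D - D 0|²) |exp P| exp(|z|²)` and the maximum principle.
-/

set_option autoImplicit false

namespace Pool.Agent.H17EF

open Pool.Agent.H36.BP Metric Filter Topology

/-- division with remainder by `z^k` -/
theorem exists_div {D : ℂ → ℂ} (hD : Differentiable ℂ D) (k : ℕ) :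
    ∃ (T : Polynomial ℂ) (H : ℂ → ℂ), T.degree < k ∧ Differentiable ℂ H ∧ ∀ z, D z = T.eval z + z ^ k * H z := by
  induction k with
  | zero => exact ⟨0, D, by simp, hD, by simp⟩
  | succ k ih =>
    obtain ⟨T, H, hT, hH, h⟩ := ih
    refine ⟨T + Polynomial.C (H 0) * Polynomial.X ^ k, dslope H 0, ?_, ?_, ?_⟩
    · refine lt_of_le_of_lt (Polynomial.degree_add_le _ _) (max_lt (hT.trans ?_) ?_)
      · exact_mod_cast Nat.lt_succ_self k
      · refine lt_of_le_of_lt (Polynomial.degree_C_mul_X_pow_le k _) ?_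
        exact_mod_cast Nat.lt_succ_self k
    · rw [← differentiableOn_univ] at hH ⊢
      exact (Complex.differentiableOn_dslope (by simp)).2 hH
    · intro z
      have h1 : (z - 0) • dslope H 0 z = H z - H 0 := sub_smul_dslope H 0 z
      rw [sub_zero, smul_eq_mul] at h1
      rw [h z]
      simp only [Polynomial.eval_add, Polynomial.eval_mul, Polynomial.eval_C, Polynomial.eval_pow, Polynomial.eval_X]
      have h2 : H z = H 0 + z * dslope H 0 z := by rw [h1]; ring
      conv_lhs => rw [h2]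
      ring

/-- growth of a polynomial -/
theorem poly_bound (T : Polynomial ℂ) {k : ℕ} (hT : T.degree < (k + 1 : ℕ)) :
    ∃ K : ℝ, 0 ≤ K ∧ ∀ z : ℂ, 1 ≤ ‖z‖ → ‖T.eval z‖ ≤ K * ‖z‖ ^ k := by
  refine ⟨∑ i ∈ Finset.range (k + 1), ‖T.coeff i‖, Finset.sum_nonneg fun _ _ => norm_nonneg _, fun z hz => ?_⟩
  have h1 : T.natDegree < k + 1 := by
    rcases eq_or_ne T 0 with h | h
    · subst h; simp
    · exact (Polynomial.natDegree_lt_iff_degree_lt h).2 hT
  rw [Polynomial.eval_eq_sum_range' h1, Finset.sum_mul]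
  refine (norm_sum_le _ _).trans (Finset.sum_le_sum fun i hi => ?_)
  rw [norm_mul, norm_pow]
  exact mul_le_mul_of_nonneg_left (pow_le_pow_right₀ hz (Nat.lt_succ_iff.1 (Finset.mem_range.1 hi))) (norm_nonneg _)

theorem affine_of_bound {N : ℕ} {D : ℂ → ℂ} (hD : Differentiable ℂ D) {c C₀ : ℝ} (hc : 0 < c)
    (h : ∀ r : ℝ, 0 < r → ∃ G : ℂ → EN N, DifferentiableOn ℂ G (ball 0 r) ∧ (∀ z ∈ ball (0 : ℂ) r, ‖G z‖ ≤ 1) ∧
      Real.exp (-(C₀ * (1 + r ^ 2))) ≤ ‖G 0‖ ∧ ∀ z ∈ ball (0 : ℂ) r, G z ≠ 0 → c * ‖deriv D z‖ ≤ fs (G z) (deriv G z)) :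
    ∃ a b : ℂ, ∀ z, D z = a * z + b := by
  -- the key estimate
  have key : ∀ k : ℕ, ∀ (T : Polynomial ℂ) (H : ℂ → ℂ), T.degree < ((k + 1 + 1 : ℕ) : WithBot ℕ) → Differentiable ℂ H →
      (∀ z, D z = T.eval z + z ^ (k + 1 + 1) * H z) → H 0 = 0 := by
    intro k T H hT hH hdec
    obtain ⟨K, hK0, hK⟩ := poly_bound (T - Polynomial.C (D 0)) (k := k + 1) (by
      refine lt_of_le_of_lt (Polynomial.degree_sub_le _ _) (max_lt hT ?_)
      refine lt_of_le_of_lt Polynomial.degree_C_le ?_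
      exact_mod_cast Nat.succ_pos _)
    by_contra hne
    have hpos : 0 < ‖H 0‖ := norm_pos_iff.2 hne
    set a : ℝ := c ^ 2 / 2 with ha
    have ha0 : 0 < a := by positivity
    -- estimate for every radius
    have est : ∀ s : ℝ, 1 ≤ s → a / 2 * ‖H 0‖ ^ 2 * s ^ (2 * (k + 1 + 1)) ≤
        C₀ * (1 + (2 * s) ^ 2) + a * K ^ 2 * s ^ (2 * (k + 1)) + s ^ 2 := by
      intro s hs
      have hs0 : 0 < s := by linarith
      obtain ⟨G, hG, hG1, hG0, hGd⟩ := h (2 * s) (by positivity)
      set P : ℂ → ℂ := fun z => (a / 2 : ℝ) * (2 * (starRingEnd ℂ (H 0)) * (s : ℂ) ^ (2 * (k + 1 + 1)) * H z -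
        ((‖H 0‖ ^ 2 * s ^ (2 * (k + 1 + 1)) : ℝ) : ℂ)) with hP
      have hPd : Differentiable ℂ P := by
        rw [hP]; fun_prop
      set u : ℂ → ℝ := fun z => ‖G z‖ ^ (1 : ℝ) * Real.exp (-a * ‖D z - D 0‖ ^ 2) * ‖Complex.exp (P z)‖ * Real.exp (1 * ‖z‖ ^ 2) with hu
      have hsub : closedBall (0 : ℂ) s ⊆ ball 0 (2 * s) := closedBall_subset_ball (by linarith)
      have hGan : ∀ z ∈ ball (0 : ℂ) (2 * s), AnalyticAt ℂ G z := fun z hz => hG.analyticAt (isOpen_ball.mem_nhds hz)
      have hmax := max_principle (S := closedBall (0 : ℂ) s) (U := ball (0 : ℂ) s) (isCompact_closedBall _ _) isOpen_ball ball_subset_closedBall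
        (u := u) ?_ ?_ (A := Real.exp (a * K ^ 2 * s ^ (2 * (k + 1)) + s ^ 2)) (Real.exp_pos _).le ?_ 0 (mem_closedBall_self hs0.le)
      · -- conclusion
        have hP0 : ‖Complex.exp (P 0)‖ = Real.exp (a / 2 * ‖H 0‖ ^ 2 * s ^ (2 * (k + 1 + 1))) := by
          rw [Complex.norm_exp]
          congr 1
          have h1 : P 0 = ((a / 2 * ‖H 0‖ ^ 2 * s ^ (2 * (k + 1 + 1)) : ℝ) : ℂ) := by
            have h2 : (starRingEnd ℂ (H 0)) * H 0 = ((‖H 0‖ ^ 2 : ℝ) : ℂ) := by
              rw [mul_comm, Complex.mul_conj, Complex.normSq_eq_norm_sq]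
            have h3 : 2 * (starRingEnd ℂ (H 0)) * (s : ℂ) ^ (2 * (k + 1 + 1)) * H 0 = 2 * (s : ℂ) ^ (2 * (k + 1 + 1)) * ((starRingEnd ℂ (H 0)) * H 0) := by ring
            rw [hP]
            simp only
            rw [h3, h2]
            push_cast
            ring
          rw [h1, Complex.ofReal_re]
        have hu0 : u 0 = ‖G 0‖ * Real.exp (a / 2 * ‖H 0‖ ^ 2 * s ^ (2 * (k + 1 + 1))) := by
          rw [hu]
          simp only [Real.rpow_one, sub_self, norm_zero, hP0]
          norm_num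
        rw [hu0] at hmax
        have h4 : Real.exp (-(C₀ * (1 + (2 * s) ^ 2))) * Real.exp (a / 2 * ‖H 0‖ ^ 2 * s ^ (2 * (k + 1 + 1))) ≤
            Real.exp (a * K ^ 2 * s ^ (2 * (k + 1)) + s ^ 2) :=
          (mul_le_mul_of_nonneg_right hG0 (Real.exp_pos _).le).trans hmax
        rw [← Real.exp_add, Real.exp_le_exp] at h4
        linarith
      · -- upper semicontinuity
        apply ContinuousOn.upperSemicontinuousOn
        have hGc : ContinuousOn G (closedBall 0 s) := hG.continuousOn.mono hsub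
        have hDc := hD.continuous
        have hPc := hPd.continuous
        have h5 : ContinuousOn (fun z => ‖G z‖ ^ (1 : ℝ)) (closedBall 0 s) := by
          simp only [Real.rpow_one]; exact hGc.norm
        have h6 : Continuous (fun z => Real.exp (-a * ‖D z - D 0‖ ^ 2)) := by fun_prop
        have h7 : Continuous (fun z => ‖Complex.exp (P z)‖) := by fun_prop
        have h8 : Continuous (fun z : ℂ => Real.exp (1 * ‖z‖ ^ 2)) := by fun_prop
        exact ((h5.mul h6.continuousOn).mul h7.continuousOn).mul h8.continuousOn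
      · -- the supports
        intro z hz hupos
        have hz2 : z ∈ ball (0 : ℂ) (2 * s) := hsub (ball_subset_closedBall hz)
        have hGz : G z ≠ 0 := by
          intro h0
          rw [hu] at hupos
          simp only [h0, norm_zero, Real.rpow_one, zero_mul, lt_irrefl] at hupos
        have s1 := Sub.norm_rpow (hGan z hz2) hGz 1
        have s2 := Sub.exp_sq (t := fun z => D z - D 0) (z₀ := z) ((hD.analyticAt z).sub analyticAt_const) (-a)
        have s3 := Sub.of_holo (h := fun z => Complex.exp (P z)) (z₀ := z) ((hPd.analyticAt z).cexp) (Complex.exp_ne_zero _)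
        have s4 := Sub.exp_sq (t := fun z => z) (z₀ := z) analyticAt_id 1
        have s5 := ((s1.mul s2).mul s3).mul s4
        refine ⟨_, ?_, s5⟩
        have h9 : deriv (fun z => D z - D 0) z = deriv D z := by
          rw [deriv_sub_const]
        have h10 : deriv (fun z : ℂ => z) z = 1 := deriv_id z
        rw [h9, h10]
        have h11 := hGd z hz2 hGz
        have h12 : (c * ‖deriv D z‖) ^ 2 ≤ fs (G z) (deriv G z) ^ 2 := by
          apply pow_le_pow_left₀ (by positivity) h11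
        simp only [norm_one]
        rw [ha]
        nlinarith [sq_nonneg (‖deriv D z‖)]
      · -- the boundary
        intro z hz
        have hzn : ‖z‖ = s := by
          have h13 := hz.1
          have h14 := hz.2
          simp only [mem_closedBall, mem_ball, dist_zero_right, not_lt] at h13 h14
          exact le_antisymm h13 h14
        have hz2 : z ∈ ball (0 : ℂ) (2 * s) := hsub hz.1
        have hPle : (P z).re ≤ a * ‖D z - D 0‖ ^ 2 + a * K ^ 2 * s ^ (2 * (k + 1)) := by
          have h15 : (P z).re = a / 2 * (2 * s ^ (2 * (k + 1 + 1)) * ((starRingEnd ℂ (H 0)) * H z).re - ‖H 0‖ ^ 2 * s ^ (2 * (k + 1 + 1))) := by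
            have h16 : P z = ((a / 2 : ℝ) : ℂ) * (((2 * s ^ (2 * (k + 1 + 1)) : ℝ) : ℂ) * ((starRingEnd ℂ (H 0)) * H z) -
              ((‖H 0‖ ^ 2 * s ^ (2 * (k + 1 + 1)) : ℝ) : ℂ)) := by
              rw [hP]; push_cast; ring
            rw [h16, Complex.re_ofReal_mul, Complex.sub_re, Complex.re_ofReal_mul, Complex.ofReal_re]
          have h17 : ((starRingEnd ℂ (H 0)) * H z).re ≤ ‖H 0‖ * ‖H z‖ := by
            refine (Complex.re_le_norm _).trans ?_
            rw [norm_mul, RCLike.norm_conj]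
          have h18 : 2 * (‖H 0‖ * ‖H z‖) ≤ ‖H 0‖ ^ 2 + ‖H z‖ ^ 2 := by nlinarith [sq_nonneg (‖H 0‖ - ‖H z‖)]
          have h19 : s ^ (2 * (k + 1 + 1)) * ‖H z‖ ^ 2 = ‖D z - T.eval z‖ ^ 2 := by
            rw [hdec z, add_sub_cancel_left, norm_mul, norm_pow, hzn]
            ring
          have h20 : ‖D z - T.eval z‖ ≤ ‖D z - D 0‖ + ‖T.eval z - D 0‖ := by
            calc ‖D z - T.eval z‖ = ‖(D z - D 0) - (T.eval z - D 0)‖ := by congr 1; ring
              _ ≤ _ := norm_sub_le _ _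
          have h21 : ‖T.eval z - D 0‖ ≤ K * s ^ (k + 1) := by
            have := hK z (by rw [hzn]; exact hs)
            rwa [Polynomial.eval_sub, Polynomial.eval_C, hzn] at this
          have h22 : ‖D z - T.eval z‖ ^ 2 ≤ 2 * ‖D z - D 0‖ ^ 2 + 2 * (K ^ 2 * s ^ (2 * (k + 1))) := by
            have h23 : ‖D z - T.eval z‖ ^ 2 ≤ (‖D z - D 0‖ + K * s ^ (k + 1)) ^ 2 := by
              apply pow_le_pow_left₀ (norm_nonneg _)
              linarith
            have h24 : (K * s ^ (k + 1)) ^ 2 = K ^ 2 * s ^ (2 * (k + 1)) := by ring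
            nlinarith [sq_nonneg (‖D z - D 0‖ - K * s ^ (k + 1))]
          have hsp : 0 < s ^ (2 * (k + 1 + 1)) := by positivity
          rw [h15]
          have h25 : 2 * s ^ (2 * (k + 1 + 1)) * ((starRingEnd ℂ (H 0)) * H z).re ≤ s ^ (2 * (k + 1 + 1)) * (‖H 0‖ ^ 2 + ‖H z‖ ^ 2) := by
            nlinarith
          have h26 : 2 * s ^ (2 * (k + 1 + 1)) * ((starRingEnd ℂ (H 0)) * H z).re - ‖H 0‖ ^ 2 * s ^ (2 * (k + 1 + 1)) ≤
              2 * ‖D z - D 0‖ ^ 2 + 2 * (K ^ 2 * s ^ (2 * (k + 1))) := by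
            nlinarith
          calc _ ≤ a / 2 * (2 * ‖D z - D 0‖ ^ 2 + 2 * (K ^ 2 * s ^ (2 * (k + 1)))) := mul_le_mul_of_nonneg_left h26 (by positivity)
            _ = _ := by ring
        rw [hu]
        simp only [Real.rpow_one, one_mul]
        rw [Complex.norm_exp, hzn]
        calc ‖G z‖ * Real.exp (-a * ‖D z - D 0‖ ^ 2) * Real.exp (P z).re * Real.exp (s ^ 2)
            ≤ 1 * Real.exp (-a * ‖D z - D 0‖ ^ 2) * Real.exp (P z).re * Real.exp (s ^ 2) := by
              gcongr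
              exact hG1 z hz2
          _ = Real.exp (-a * ‖D z - D 0‖ ^ 2 + (P z).re + s ^ 2) := by
              rw [one_mul, ← Real.exp_add, ← Real.exp_add]
          _ ≤ _ := by
              apply Real.exp_le_exp.2
              nlinarith
    -- contradiction for large `s`
    set A : ℝ := a / 2 * ‖H 0‖ ^ 2 with hA
    have hA0 : 0 < A := by positivity
    set B : ℝ := |C₀| * 5 + a * K ^ 2 + 1 with hB
    have hB0 : 0 ≤ B := by positivity
    obtain ⟨s, hs1, hs2⟩ : ∃ s : ℝ, 1 ≤ s ∧ B < A * s := by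
      refine ⟨max 1 ((B + 1) / A), le_max_left _ _, ?_⟩
      have h1 : (B + 1) / A ≤ max 1 ((B + 1) / A) := le_max_right _ _
      rw [div_le_iff₀ hA0] at h1
      linarith
    have h2 := est s hs1
    have hs0 : 0 < s := by linarith
    have h3 : s ^ 2 ≤ s ^ (2 * (k + 1)) := pow_le_pow_right₀ hs1 (by omega)
    have h4 : (1 : ℝ) ≤ s ^ (2 * (k + 1)) := one_le_pow₀ hs1
    have h5 : C₀ * (1 + (2 * s) ^ 2) ≤ |C₀| * 5 * s ^ (2 * (k + 1)) := by
      have h6 : C₀ * (1 + (2 * s) ^ 2) ≤ |C₀| * (1 + (2 * s) ^ 2) := mul_le_mul_of_nonneg_right (le_abs_self _) (by positivity)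
      have h7 : 1 + (2 * s) ^ 2 ≤ 5 * s ^ (2 * (k + 1)) := by nlinarith
      have h8 := mul_le_mul_of_nonneg_left h7 (abs_nonneg C₀)
      linarith
    have h9 : A * s ^ (2 * (k + 1 + 1)) ≤ B * s ^ (2 * (k + 1)) := by
      rw [hB]
      nlinarith
    have h10 : s ^ (2 * (k + 1 + 1)) = s ^ (2 * (k + 1)) * (s * s) := by ring
    have hsp : 0 < s ^ (2 * (k + 1)) := by positivity
    rw [h10] at h9
    have h11 : A * (s * s) ≤ B := by
      have h12 : s ^ (2 * (k + 1)) * (A * (s * s)) ≤ s ^ (2 * (k + 1)) * B := by linarith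
      exact le_of_mul_le_mul_left h12 hsp
    have h13 : A * s ≤ A * (s * s) := by
      have : s * 1 ≤ s * s := mul_le_mul_of_nonneg_left hs1 hs0.le
      rw [mul_one] at this
      exact mul_le_mul_of_nonneg_left this hA0.le
    linarith
  -- all coefficients vanish
  obtain ⟨T, H, hT, hH, hdec⟩ := exists_div hD 2
  have hHz : ∀ m : ℕ, ∃ H' : ℂ → ℂ, Differentiable ℂ H' ∧ (∀ z, D z = T.eval z + z ^ (m + 1 + 1) * H' z) := by
    intro m
    induction m with
    | zero => exact ⟨H, hH, hdec⟩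
    | succ m ih =>
      obtain ⟨H', hH', hd⟩ := ih
      have h0 : H' 0 = 0 := key m T H' (lt_of_lt_of_le hT (by exact_mod_cast (by omega : 2 ≤ m + 1 + 1))) hH' hd
      refine ⟨dslope H' 0, ?_, fun z => ?_⟩
      · rw [← differentiableOn_univ] at hH' ⊢
        exact (Complex.differentiableOn_dslope (by simp)).2 hH'
      · have h1 : (z - 0) • dslope H' 0 z = H' z - H' 0 := sub_smul_dslope H' 0 z
        rw [sub_zero, smul_eq_mul, h0, sub_zero] at h1
        rw [hd z, ← h1]
        ring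
  have hev : ∀ᶠ z in 𝓝 (0 : ℂ), D z - T.eval z = 0 := by
    have han : AnalyticAt ℂ (fun z => D z - T.eval z) 0 := (hD.analyticAt 0).sub (T.differentiable.analyticAt 0)
    rw [← analyticOrderAt_eq_top]
    by_contra hne
    obtain ⟨n, hn⟩ := ENat.ne_top_iff_exists.1 hne
    have h1 : ((n + 2 : ℕ) : ℕ∞) ≤ analyticOrderAt (fun z => D z - T.eval z) 0 := by
      rw [natCast_le_analyticOrderAt han]
      obtain ⟨H', hH', hd⟩ := hHz n
      refine ⟨H', hH'.analyticAt 0, Eventually.of_forall fun z => ?_⟩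
      rw [hd z]
      simp
    rw [← hn] at h1
    have : n + 2 ≤ n := by exact_mod_cast h1
    omega
  have hall : ∀ z, D z - T.eval z = 0 := by
    have h1 : AnalyticOnNhd ℂ (fun z => D z - T.eval z) Set.univ := fun z _ => (hD.analyticAt z).sub (T.differentiable.analyticAt z)
    intro z
    exact h1.eqOn_zero_of_preconnected_of_eventuallyEq_zero isPreconnected_univ (Set.mem_univ 0) hev (Set.mem_univ z)
  have hT1 : T.natDegree ≤ 1 := by
    rcases eq_or_ne T 0 with h | h
    · subst h; simp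
    · exact Nat.lt_succ_iff.1 ((Polynomial.natDegree_lt_iff_degree_lt h).2 hT)
  refine ⟨T.coeff 1, T.coeff 0, fun z => ?_⟩
  have h1 := hall z
  rw [sub_eq_zero] at h1
  rw [h1, Polynomial.eq_X_add_C_of_natDegree_le_one hT1]
  simp

end Pool.Agent.H17EF
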